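import Pool.Agent.Results.MP_ac85ec_co.FourLevels

set_option autoImplicit false

namespace Run7.h487.GO

open Finset
open Pool.Agent.Results.MP_ac85ec_co.FourLevels (IsOrder Lt Covers IsGrade GradedWithLevels a)

variable {n : ℕ}

open scoped Classical in
/-- A finite order is generated by its covers. -/
lemma gen_covers {r : Fin n → Fin n → Prop} (hr : IsOrder r) :
    ∀ (m : ℕ) (x y : Fin n), (univ.filter fun z => r x z ∧ r z y).card ≤ m → r x y →
      Relation.ReflTransGen (Covers r) x y := by
  classical
  intro m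
  induction m with
  | zero =>
    intro x y hm hxy
    exfalso
    have : x ∈ (univ.filter fun z => r x z ∧ r z y) := by
      simp only [mem_filter, mem_univ, true_and]
      exact ⟨hr.1 x, hxy⟩
    rw [Nat.le_zero, card_eq_zero] at hm
    rw [hm] at this
    exact absurd this (notMem_empty _)
  | succ m ih =>
    intro x y hm hxy
    by_cases hne : x = y
    · rw [hne]
    by_cases hc : Covers r x y
    · exact Relation.ReflTransGen.single hc
    · have hlt : Lt r x y := ⟨hxy, hne⟩
      have : ∃ z, Lt r x z ∧ Lt r z y := by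
        by_contra h
        exact hc ⟨hlt, h⟩
      obtain ⟨z, hxz, hzy⟩ := this
      have h1 : (univ.filter fun w => r x w ∧ r w z).card <
          (univ.filter fun w => r x w ∧ r w y).card := by
        apply card_lt_card
        refine ⟨fun w hw => ?_, fun h => ?_⟩
        · simp only [mem_filter, mem_univ, true_and] at hw ⊢
          exact ⟨hw.1, hr.2.2 _ _ _ hw.2 hzy.1⟩
        · have hy : y ∈ (univ.filter fun w => r x w ∧ r w y) := by
            simp only [mem_filter, mem_univ, true_and]
            exact ⟨hxy, hr.1 y⟩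
          have := h hy
          simp only [mem_filter, mem_univ, true_and] at this
          exact hzy.2 (hr.2.1 _ _ hzy.1 this.2)
      have h2 : (univ.filter fun w => r z w ∧ r w y).card <
          (univ.filter fun w => r x w ∧ r w y).card := by
        apply card_lt_card
        refine ⟨fun w hw => ?_, fun h => ?_⟩
        · simp only [mem_filter, mem_univ, true_and] at hw ⊢
          exact ⟨hr.2.2 _ _ _ hxz.1 hw.1, hw.2⟩
        · have hx : x ∈ (univ.filter fun w => r x w ∧ r w y) := by
            simp only [mem_filter, mem_univ, true_and]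
            exact ⟨hr.1 x, hxy⟩
          have := h hx
          simp only [mem_filter, mem_univ, true_and] at this
          exact hxz.2 (hr.2.1 _ _ hxz.1 this.1)
      exact (ih x z (by omega) hxz.1).trans (ih z y (by omega) hzy.1)

lemma covers_of {r : Fin n → Fin n → Prop} (hr : IsOrder r) {x y : Fin n} (h : r x y) :
    Relation.ReflTransGen (Covers r) x y := gen_covers hr _ x y le_rfl h

lemma of_covers {r : Fin n → Fin n → Prop} (hr : IsOrder r) {x y : Fin n}
    (h : Relation.ReflTransGen (Covers r) x y) : r x y := by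
  induction h with
  | refl => exact hr.1 x
  | tail _ hbc ih => exact hr.2.2 _ _ _ ih hbc.1.1

/-- The difference of two grade maps is constant on components. -/
lemma diff_const {r : Fin n → Fin n → Prop} (hr : IsOrder r) {g g' : Fin n → ℕ}
    (hg : IsGrade r g) (hg' : IsGrade r g') {x y : Fin n} (h : Relation.EqvGen r x y) :
    (g x : ℤ) - g' x = g y - g' y := by
  induction h with
  | rel x y hxy =>
    have := covers_of hr hxy
    clear hxy
    induction this with
    | refl => rfl
    | tail _ hbc ih =>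
      have h1 := hg.step _ _ hbc
      have h2 := hg'.step _ _ hbc
      rw [ih, h1, h2]
      push_cast
      ring
  | refl => rfl
  | symm _ _ _ ih => exact ih.symm
  | trans _ _ _ _ _ ih1 ih2 => exact ih1.trans ih2

/-- The grade map is unique. -/
lemma grade_unique {r : Fin n → Fin n → Prop} (hr : IsOrder r) {g g' : Fin n → ℕ}
    (hg : IsGrade r g) (hg' : IsGrade r g') : g = g' := by
  funext p
  obtain ⟨b, hb, hb1⟩ := hg.norm p
  obtain ⟨b', hb', hb1'⟩ := hg'.norm p
  have h1 := diff_const hr hg hg' hb
  have h2 := diff_const hr hg hg' hb'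
  have h3 := hg'.pos b
  have h4 := hg.pos b'
  omega

lemma between {r : Fin n → Fin n → Prop} (hr : IsOrder r) {g : Fin n → ℕ}
    (hg : IsGrade r g) {x y : Fin n} (h : Relation.EqvGen r x y) :
    ∀ m, (g x ≤ m ∧ m ≤ g y ∨ g y ≤ m ∧ m ≤ g x) → ∃ q, g q = m := by
  induction h with
  | rel x y hxy =>
    have hle := hg.mono _ _ hxy
    have := covers_of hr hxy
    clear hxy hle
    induction this with
    | refl => intro m hm; exact ⟨x, by omega⟩
    | @tail b c hb hbc ih =>
      intro m hm
      have h1 := hg.step _ _ hbc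
      have h2 := hg.mono _ _ (of_covers hr hb)
      by_cases hmc : m = g c
      · exact ⟨c, hmc.symm⟩
      · exact ih m (by omega)
  | refl x => intro m hm; exact ⟨x, by omega⟩
  | symm _ _ _ ih => intro m hm; exact ih m (by tauto)
  | trans x y z _ _ ih1 ih2 =>
    intro m hm
    by_cases h : g x ≤ m ∧ m ≤ g y ∨ g y ≤ m ∧ m ≤ g x
    · exact ih1 m h
    · exact ih2 m (by omega)

lemma range_graded {k : ℕ} {r : Fin n → Fin n → Prop} (hr : IsOrder r) {g : Fin n → ℕ}
    (hg : IsGrade r g) (hk : (Set.range g).ncard = k) :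
    (∀ p, g p ≤ k) ∧ ∀ m, 1 ≤ m → m ≤ k → ∃ q, g q = m := by
  have hfin : (Set.range g).Finite := Set.finite_range g
  have hsub : ∀ p, ((Finset.Icc 1 (g p) : Finset ℕ) : Set ℕ) ⊆ Set.range g := by
    intro p m hm
    rw [Finset.coe_Icc, Set.mem_Icc] at hm
    obtain ⟨b, hb, hb1⟩ := hg.norm p
    obtain ⟨q, hq⟩ := between hr hg hb m (by omega)
    exact ⟨q, hq⟩
  have hle : ∀ p, g p ≤ k := by
    intro p
    have := Set.ncard_le_ncard (hsub p) hfin
    rw [Set.ncard_coe_finset, hk, Nat.card_Icc] at this
    omega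
  refine ⟨hle, ?_⟩
  have hsub2 : Set.range g ⊆ ((Finset.Icc 1 k : Finset ℕ) : Set ℕ) := by
    rintro _ ⟨p, rfl⟩
    rw [Finset.coe_Icc, Set.mem_Icc]
    exact ⟨hg.pos p, hle p⟩
  have heq : Set.range g = ((Finset.Icc 1 k : Finset ℕ) : Set ℕ) := by
    apply Set.eq_of_subset_of_ncard_le hsub2
    · rw [Set.ncard_coe_finset, Nat.card_Icc, hk]
      omega
  intro m h1 h2
  have : m ∈ Set.range g := by
    rw [heq, Finset.coe_Icc, Set.mem_Icc]
    exact ⟨h1, h2⟩
  exact this

/-- The possible arcs of a level map. -/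
def arcs {k : ℕ} (l : Fin n → Fin k) : Finset (Fin n × Fin n) :=
  univ.filter fun e => (l e.1 : ℕ) + 1 = l e.2

/-- The number of graded orders is at most the number of pairs of a surjective level map and a set of
arcs. -/
theorem a_le (k : ℕ) : a k n ≤ ∑ l ∈ univ.filter (fun l : Fin n → Fin k => Function.Surjective l),
    2 ^ (arcs l).card := by
  classical
  have h1 : ∑ l ∈ univ.filter (fun l : Fin n → Fin k => Function.Surjective l),
      2 ^ (arcs l).card =
      ((univ.filter (fun l : Fin n → Fin k => Function.Surjective l)).sigma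
        (fun l => (arcs l).powerset)).card := by
    rw [card_sigma]
    refine sum_congr rfl fun l _ => ?_
    rw [card_powerset]
  rw [h1]
  set S := (univ.filter (fun l : Fin n → Fin k => Function.Surjective l)).sigma
        (fun l => (arcs l).powerset) with hS
  have h2 : S.card = Nat.card S := by
    rw [Nat.card_eq_fintype_card, Fintype.card_coe]
  rw [h2]
  unfold a
  have key : ∀ r : {r : Fin n → Fin n → Prop // GradedWithLevels k r},
      ∃ s : S, ∀ x y : Fin n, (x, y) ∈ s.1.2 ↔ Covers r.1 x y := by
    rintro ⟨r, hr, g, hg, hk⟩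
    obtain ⟨hle, hsurj⟩ := range_graded hr hg hk
    have hlt : ∀ p, g p - 1 < k := fun p => by
      have := hle p
      have := hg.pos p
      omega
    let l : Fin n → Fin k := fun p => ⟨g p - 1, hlt p⟩
    refine ⟨⟨⟨l, univ.filter fun e => Covers r e.1 e.2⟩, ?_⟩, ?_⟩
    · rw [hS, mem_sigma]
      constructor
      · simp only [mem_filter, mem_univ, true_and]
        intro i
        obtain ⟨q, hq⟩ := hsurj (i.1 + 1) (by omega) (by have := i.2; omega)
        refine ⟨q, ?_⟩
        apply Fin.ext
        show g q - 1 = i.1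
        omega
      · show (univ.filter fun e : Fin n × Fin n => Covers r e.1 e.2) ∈ (arcs l).powerset
        rw [mem_powerset]
        intro e he
        simp only [mem_filter, mem_univ, true_and] at he
        unfold arcs
        simp only [mem_filter, mem_univ, true_and]
        show g e.1 - 1 + 1 = g e.2 - 1
        have := hg.step _ _ he
        have := hg.pos e.1
        omega
    · intro x y
      simp
  choose f hf using key
  refine Nat.card_le_card_of_injective f ?_
  intro r r' hrr
  apply Subtype.ext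
  funext x y
  have hcov : ∀ x y, Covers r.1 x y ↔ Covers r'.1 x y := fun x y => by
    rw [← hf r, ← hf r', hrr]
  have hc : Covers r.1 = Covers r'.1 := by
    funext x y
    exact propext (hcov x y)
  apply propext
  constructor
  · intro h
    have := covers_of r.2.1 h
    rw [hc] at this
    exact of_covers r'.2.1 this
  · intro h
    have := covers_of r'.2.1 h
    rw [← hc] at this
    exact of_covers r.2.1 this

/-! ### Orders from arc sets -/

/-- The order generated by a set of arcs. -/
def ordA (A : Finset (Fin n × Fin n)) : Fin n → Fin n → Prop :=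
  Relation.ReflTransGen fun x y => (x, y) ∈ A

/-- Arcs go up one level and every component has an element of level `0`. -/
structure Good (l : Fin n → ℕ) (A : Finset (Fin n × Fin n)) : Prop where
  lev : ∀ x y, (x, y) ∈ A → l x + 1 = l y
  conn : ∀ p, ∃ b, Relation.EqvGen (fun x y => (x, y) ∈ A) p b ∧ l b = 0

variable {l l' : Fin n → ℕ} {A A' : Finset (Fin n × Fin n)}

lemma cases_ord (h : Good l A) {x y : Fin n} (hxy : ordA A x y) :
    x = y ∨ (x, y) ∈ A ∨ (∃ w, ordA A x w ∧ x ≠ w ∧ (w, y) ∈ A ∧ l x < l w) := by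
  induction hxy with
  | refl => exact Or.inl rfl
  | @tail b y hb hby ih =>
    by_cases hxb : x = b
    · subst hxb; exact Or.inr (Or.inl hby)
    · refine Or.inr (Or.inr ⟨b, hb, hxb, hby, ?_⟩)
      rcases ih with h1 | h1 | ⟨w, -, -, hw, hlw⟩
      · exact absurd h1 hxb
      · have := h.lev _ _ h1; omega
      · have := h.lev _ _ hw; omega

lemma lt_ord (h : Good l A) {x y : Fin n} (hxy : ordA A x y) (hne : x ≠ y) : l x < l y := by
  rcases cases_ord h hxy with h1 | h1 | ⟨w, -, -, hw, hlw⟩
  · exact absurd h1 hne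
  · have := h.lev _ _ h1; omega
  · have := h.lev _ _ hw; omega

lemma le_ord (h : Good l A) {x y : Fin n} (hxy : ordA A x y) : l x ≤ l y := by
  by_cases hne : x = y
  · rw [hne]
  · exact (lt_ord h hxy hne).le

lemma mem_iff (h : Good l A) {x y : Fin n} : (x, y) ∈ A ↔ ordA A x y ∧ l x + 1 = l y := by
  constructor
  · intro hxy
    exact ⟨Relation.ReflTransGen.single hxy, h.lev _ _ hxy⟩
  · rintro ⟨hxy, hl⟩
    rcases cases_ord h hxy with h1 | h1 | ⟨w, -, -, hw, hlw⟩
    · subst h1; omega
    · exact h1
    · have := h.lev _ _ hw; omega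

lemma isOrder_ordA (h : Good l A) : IsOrder (ordA A) := by
  refine ⟨fun _ => Relation.ReflTransGen.refl, ?_, fun _ _ _ h1 h2 => h1.trans h2⟩
  intro x y hxy hyx
  by_contra hne
  have h1 := lt_ord h hxy hne
  have h2 := le_ord h hyx
  omega

lemma eqv_mono {r s : Fin n → Fin n → Prop} (h : ∀ x y, r x y → s x y) {x y : Fin n}
    (hxy : Relation.EqvGen r x y) : Relation.EqvGen s x y := by
  induction hxy with
  | rel x y hxy => exact Relation.EqvGen.rel _ _ (h _ _ hxy)
  | refl x => exact Relation.EqvGen.refl x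
  | symm x y _ ih => exact Relation.EqvGen.symm _ _ ih
  | trans x y z _ _ ih1 ih2 => exact Relation.EqvGen.trans _ _ _ ih1 ih2

lemma isGrade_ordA (h : Good l A) : IsGrade (ordA A) (fun p => l p + 1) where
  pos := fun p => by omega
  mono := fun p q hpq => by have := le_ord h hpq; simpa using this
  step := by
    intro p q hpq
    have key : (p, q) ∈ A := by
      rcases cases_ord h hpq.1.1 with h1 | h1 | ⟨w, how, hne, hw, hlw⟩
      · exact absurd h1 hpq.1.2
      · exact h1
      · exfalso
        apply hpq.2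
        refine ⟨w, ⟨how, hne⟩, ⟨Relation.ReflTransGen.single hw, ?_⟩⟩
        intro hwq
        have := h.lev _ _ hw
        rw [hwq] at this
        omega
    have := h.lev _ _ key
    omega
  norm := by
    intro p
    obtain ⟨b, hb, hb0⟩ := h.conn p
    exact ⟨b, eqv_mono (fun x y hxy => Relation.ReflTransGen.single hxy) hb, by omega⟩

lemma graded_ordA {k : ℕ} (h : Good l A) (hlt : ∀ p, l p < k) (hs : ∀ i, i < k → ∃ p, l p = i) :
    GradedWithLevels k (ordA A) := by
  refine ⟨isOrder_ordA h, _, isGrade_ordA h, ?_⟩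
  have : Set.range (fun p => l p + 1) = ((Finset.Icc 1 k : Finset ℕ) : Set ℕ) := by
    ext m
    simp only [Set.mem_range, Finset.coe_Icc, Set.mem_Icc]
    constructor
    · rintro ⟨p, rfl⟩
      have := hlt p
      omega
    · rintro ⟨h1, h4⟩
      obtain ⟨p, hp⟩ := hs (m - 1) (by omega)
      exact ⟨p, by omega⟩
  rw [this, Set.ncard_coe_finset, Nat.card_Icc]
  omega

lemma good_inj (h : Good l A) (h' : Good l' A') (e : ordA A = ordA A') : l = l' ∧ A = A' := by
  have h1 := isGrade_ordA h
  have h2 := isGrade_ordA h'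
  rw [← e] at h2
  have h3 := grade_unique (isOrder_ordA h) h1 h2
  have hl : l = l' := by
    funext p
    have := congrFun h3 p
    simpa using this
  refine ⟨hl, ?_⟩
  ext ⟨x, y⟩
  rw [mem_iff h, mem_iff h', e, hl]

/-- Lower bound for the number of graded orders. -/
theorem le_a (k : ℕ) (Ls : Finset (Fin n → ℕ))
    (F : (Fin n → ℕ) → Finset (Finset (Fin n × Fin n)))
    (h1 : ∀ l ∈ Ls, (∀ p, l p < k) ∧ ∀ i, i < k → ∃ p, l p = i)
    (h2 : ∀ l ∈ Ls, ∀ A ∈ F l, Good l A) :
    ∑ l ∈ Ls, (F l).card ≤ a k n := by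
  classical
  have h3 : ∑ l ∈ Ls, (F l).card = (Ls.sigma F).card := by rw [card_sigma]
  rw [h3]
  have h4 : (Ls.sigma F).card = Nat.card (Ls.sigma F) := by
    rw [Nat.card_eq_fintype_card, Fintype.card_coe]
  rw [h4]
  unfold a
  have hm : ∀ d : Ls.sigma F, d.1.1 ∈ Ls ∧ d.1.2 ∈ F d.1.1 := fun d => mem_sigma.1 d.2
  refine Nat.card_le_card_of_injective
    (fun d => ⟨ordA d.1.2, graded_ordA (h2 _ (hm d).1 _ (hm d).2) (h1 _ (hm d).1).1
      (h1 _ (hm d).1).2⟩) ?_
  intro d d' hdd
  have e : ordA d.1.2 = ordA d'.1.2 := congrArg Subtype.val hdd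
  obtain ⟨e1, e2⟩ := good_inj (h2 _ (hm d).1 _ (hm d).2) (h2 _ (hm d').1 _ (hm d').2) e
  obtain ⟨⟨l1, A1⟩, hd⟩ := d
  obtain ⟨⟨l2, A2⟩, hd'⟩ := d'
  simp only at e1 e2
  subst e1 e2
  rfl

end Run7.h487.GO
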