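import Pool.Agent.Run7.h487.GO.A

set_option autoImplicit false

/-! Level sizes, the number of arcs, and the quadratic estimate. -/

namespace Run7.h487.GO

open Finset

variable {n k : ℕ}

/-- size of the level `i` -/
def sz (l : Fin n → Fin k) (i : ℕ) : ℕ := (univ.filter fun p => (l p : ℕ) = i).card

lemma sum_level (l : Fin n → Fin k) (f : ℕ → ℝ) :
    ∑ p, f (l p) = ∑ i ∈ range k, (sz l i : ℝ) * f i := by
  classical
  have h : ∀ p, f (l p) = ∑ i ∈ range k, if (l p : ℕ) = i then f i else 0 := by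
    intro p
    rw [Finset.sum_ite_eq, if_pos (mem_range.2 (l p).2)]
  rw [sum_congr rfl fun p _ => h p, sum_comm]
  refine sum_congr rfl fun i _ => ?_
  rw [← sum_filter, sum_const, nsmul_eq_mul]
  rfl

lemma sum_sz (l : Fin n → Fin k) : ∑ i ∈ range k, (sz l i : ℝ) = n := by
  have := sum_level l (fun _ => 1)
  simp only [sum_const, card_univ, Fintype.card_fin, nsmul_eq_mul, mul_one] at this
  exact this.symm

lemma card_arcs (l : Fin n → Fin k) :
    ((arcs l).card : ℝ) = ∑ i ∈ range k, (sz l i : ℝ) * sz l (i + 1) := by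
  classical
  rw [← sum_level l (fun i => (sz l (i + 1) : ℝ))]
  unfold arcs
  rw [card_filter]
  push_cast
  rw [← univ_product_univ, sum_product]
  refine sum_congr rfl fun p _ => ?_
  unfold sz
  rw [card_filter]
  push_cast
  refine sum_congr rfl fun q _ => ?_
  simp only [eq_comm]

lemma sz_top (l : Fin n → Fin k) : sz l k = 0 := by
  unfold sz
  rw [card_eq_zero, filter_eq_empty_iff]
  intro p _ h
  have := (l p).2
  omega

lemma sz_pos (l : Fin n → Fin k) (hl : Function.Surjective l) (i : ℕ) (hi : i < k) :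
    1 ≤ sz l i := by
  obtain ⟨p, hp⟩ := hl ⟨i, hi⟩
  unfold sz
  rw [Nat.one_le_iff_ne_zero, Ne, card_eq_zero, ← Ne, ← nonempty_iff_ne_empty]
  exact ⟨p, by simp [hp]⟩

/-! ### parity sums -/

/-- the sum of the `x i`, `i ≤ m`, with `i ≡ m` and with `i ≢ m` modulo 2 -/
def pg (x : ℕ → ℝ) : ℕ → ℝ × ℝ
  | 0 => (x 0, 0)
  | m + 1 => (x (m + 1) + (pg x m).2, (pg x m).1)

/-- adjacent products -/
def U (x : ℕ → ℝ) (m : ℕ) : ℝ := ∑ i ∈ range m, x i * x (i + 1)

lemma pg_sum (x : ℕ → ℝ) (m : ℕ) : (pg x m).1 + (pg x m).2 = ∑ i ∈ range (m + 1), x i := by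
  induction m with
  | zero => simp [pg]
  | succ m ih =>
    rw [sum_range_succ, ← ih]
    simp only [pg]
    ring

lemma pg_nonneg {x : ℕ → ℝ} {m : ℕ} (hx : ∀ i, i ≤ m → 0 ≤ x i) :
    0 ≤ (pg x m).1 ∧ 0 ≤ (pg x m).2 := by
  induction m with
  | zero => exact ⟨by simpa [pg] using hx 0 le_rfl, by simp [pg]⟩
  | succ m ih =>
    have h := ih (fun i hi => hx i (by omega))
    simp only [pg]
    exact ⟨add_nonneg (hx _ le_rfl) h.2, h.1⟩

lemma le_pg {x : ℕ → ℝ} {m : ℕ} (hx : ∀ i, i ≤ m → 0 ≤ x i) : x m ≤ (pg x m).1 := by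
  cases m with
  | zero => simp [pg]
  | succ m =>
    have h := pg_nonneg (m := m) (fun i hi => hx i (by omega))
    simp only [pg]
    linarith [h.2]

lemma U_le {x : ℕ → ℝ} {m : ℕ} (hx : ∀ i, i ≤ m → 0 ≤ x i) :
    U x m ≤ (pg x m).1 * (pg x m).2 := by
  induction m with
  | zero => simp [U, pg]
  | succ m ih =>
    have h := ih (fun i hi => hx i (by omega))
    have h2 := le_pg (m := m) (fun i hi => hx i (by omega))
    have h3 := hx (m + 1) le_rfl
    unfold U at h ⊢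
    rw [sum_range_succ]
    simp only [pg]
    nlinarith

lemma pg_count {x : ℕ → ℝ} {m : ℕ} (hx : ∀ i, i ≤ m → 1 ≤ x i) :
    ((m / 2 + 1 : ℕ) : ℝ) ≤ (pg x m).1 ∧ (((m + 1) / 2 : ℕ) : ℝ) ≤ (pg x m).2 := by
  induction m with
  | zero => exact ⟨by simpa [pg] using hx 0 le_rfl, by simp [pg]⟩
  | succ m ih =>
    have h := ih (fun i hi => hx i (by omega))
    simp only [pg]
    refine ⟨?_, ?_⟩
    · have h1 := hx (m + 1) le_rfl
      have : (((m + 1) / 2 + 1 : ℕ) : ℝ) = (((m + 1) / 2 : ℕ) : ℝ) + 1 := by push_cast; ring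
      rw [this]
      linarith [h.2]
    · have : (m + 1 + 1) / 2 = m / 2 + 1 := by omega
      rw [this]
      exact h.1

lemma pg_count' {x : ℕ → ℝ} {m : ℕ} (hx : ∀ i, i ≤ m → 1 ≤ x i) :
    ((m / 2 : ℕ) : ℝ) ≤ (pg x m).1 - x m := by
  cases m with
  | zero => simp [pg]
  | succ m =>
    have h := pg_count (x := x) (m := m) (fun i hi => hx i (by omega))
    simp only [pg]
    linarith [h.2]

/-- Prefix estimate. -/
lemma prefix_est {x : ℕ → ℝ} {j : ℕ} (hx : ∀ i, i ≤ j + 1 → 1 ≤ x i) :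
    ∃ aP aQ : ℝ, (pg x (j + 1)).1 = x (j + 1) + aP ∧ (pg x (j + 1)).2 = x j + aQ ∧
      (((j + 1) / 2 : ℕ) : ℝ) ≤ aP ∧ ((j / 2 : ℕ) : ℝ) ≤ aQ ∧
      U x (j + 1) ≤ (pg x (j + 1)).1 * (pg x (j + 1)).2 - x (j + 1) * aQ
        - x j * ((((j + 1) / 2 : ℕ) : ℝ) - 1) := by
  have hx0 : ∀ i, i ≤ j + 1 → 0 ≤ x i := fun i hi => by linarith [hx i hi]
  cases j with
  | zero =>
    refine ⟨0, 0, by simp [pg], by simp [pg], by simp, by simp, ?_⟩
    have h0 := hx0 0 (by omega)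
    simp [U, pg]
    nlinarith
  | succ j =>
    have h1 := pg_count (x := x) (m := j) (fun i hi => hx i (by omega))
    have h2 := pg_nonneg (x := x) (m := j) (fun i hi => hx0 i (by omega))
    have h3 := U_le (x := x) (m := j) (fun i hi => hx0 i (by omega))
    have h4 := le_pg (x := x) (m := j) (fun i hi => hx0 i (by omega))
    refine ⟨(pg x j).1, (pg x j).2, ?_, ?_, ?_, h1.2, ?_⟩
    · simp only [pg]
    · simp only [pg]
    · have : (j + 1 + 1) / 2 = j / 2 + 1 := by omega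
      rw [this]
      exact h1.1
    · have e : U x (j + 1 + 1) = U x j + x j * x (j + 1) + x (j + 1) * x (j + 1 + 1) := by
        unfold U
        rw [sum_range_succ, sum_range_succ]
      rw [e]
      simp only [pg]
      have hc : (((j + 1 + 1) / 2 : ℕ) : ℝ) - 1 ≤ (pg x j).1 - x j := by
        have h7 := pg_count' (x := x) (m := j) (fun i hi => hx i (by omega))
        have : (j + 1 + 1) / 2 = j / 2 + 1 := by omega
        rw [this]
        push_cast
        linarith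
      have h5 := hx0 (j + 1) (by omega)
      have h6 := hx0 (j + 1 + 1) (by omega)
      nlinarith

/-- the sequence read from the top level downwards -/
def rev (k : ℕ) (x : ℕ → ℝ) (i : ℕ) : ℝ := x (k - 1 - i)

lemma split_U (x : ℕ → ℝ) (j r : ℕ) :
    U x (j + r + 1) = U x j + x j * x (j + 1) + U (rev (j + r + 2) x) r := by
  have h1 : U x (j + r + 1) = U x (j + 1) + ∑ i ∈ range r, x (j + 1 + i) * x (j + 1 + i + 1) := by
    unfold U
    rw [show j + r + 1 = j + 1 + r by ring, sum_range_add]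
  have h2 : U x (j + 1) = U x j + x j * x (j + 1) := by
    unfold U
    rw [sum_range_succ]
  have h3 : ∑ i ∈ range r, x (j + 1 + i) * x (j + 1 + i + 1) = U (rev (j + r + 2) x) r := by
    unfold U
    rw [← sum_range_reflect]
    refine sum_congr rfl fun i hi => ?_
    rw [mem_range] at hi
    unfold rev
    rw [show j + 1 + (r - 1 - i) = j + r + 2 - 1 - (i + 1) by omega,
      show j + r + 2 - 1 - (i + 1) + 1 = j + r + 2 - 1 - i by omega]
    ring
  rw [h1, h2, h3]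

lemma split_sum (x : ℕ → ℝ) (j r : ℕ) :
    ∑ i ∈ range (j + r + 2), x i =
      ∑ i ∈ range (j + 1), x i + ∑ i ∈ range (r + 1), rev (j + r + 2) x i := by
  have h1 : ∑ i ∈ range (j + r + 2), x i =
      ∑ i ∈ range (j + 1), x i + ∑ i ∈ range (r + 1), x (j + 1 + i) := by
    rw [show j + r + 2 = j + 1 + (r + 1) by ring, sum_range_add]
  rw [h1]
  congr 1
  rw [← sum_range_reflect]
  refine sum_congr rfl fun i hi => ?_
  rw [mem_range] at hi
  unfold rev
  congr 1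
  omega

lemma star2 (x : ℕ → ℝ) (j r : ℕ) (hx : ∀ i, i < j + r + 4 → 1 ≤ x i) :
    ∃ (p q : ℕ) (wP wQ : ℝ), p + q = j + r ∧ (p : ℝ) ≤ wP ∧ (q : ℝ) ≤ wQ ∧
      x (j + 1) + x (j + 3) + wP + (x (j + 2) + x j + wQ) = ∑ i ∈ range (j + r + 4), x i ∧
      U x (j + r + 3) ≤ (x (j + 1) + x (j + 3) + wP) * (x (j + 2) + x j + wQ)
        - x (j + 1) * wQ - x (j + 2) * wP - x j * (p - 1) - x (j + 3) * (q - 1)
        - x j * x (j + 3) := by
  obtain ⟨aP, aQ, h1, h2, h3, h4, h5⟩ := prefix_est (x := x) (j := j) (fun i hi => hx i (by omega))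
  obtain ⟨dQ, dP, g1, g2, g3, g4, g5⟩ := prefix_est (x := rev (j + r + 4) x) (j := r)
    (fun i hi => hx _ (by omega))
  have e1 : rev (j + r + 4) x (r + 1) = x (j + 2) := by
    unfold rev; congr 1; omega
  have e2 : rev (j + r + 4) x r = x (j + 3) := by
    unfold rev; congr 1; omega
  rw [e1] at g1 g5
  rw [e2] at g2 g5
  have s1 := split_U x (j + 1) (r + 1)
  rw [show j + 1 + (r + 1) + 1 = j + r + 3 by ring, show j + 1 + (r + 1) + 2 = j + r + 4 by ring] at s1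
  have s2 := split_sum x (j + 1) (r + 1)
  rw [show j + 1 + (r + 1) + 2 = j + r + 4 by ring] at s2
  rw [← pg_sum x (j + 1), ← pg_sum (rev (j + r + 4) x) (r + 1)] at s2
  have hb := hx (j + 1) (by omega)
  have hc := hx (j + 2) (by omega)
  have hA := hx j (by omega)
  have hD := hx (j + 3) (by omega)
  refine ⟨(j + 1) / 2 + r / 2, j / 2 + (r + 1) / 2, aP + dP, aQ + dQ, by omega, ?_, ?_, ?_, ?_⟩
  · push_cast at *
    linarith
  · push_cast at *
    linarith
  · rw [s2, h1, h2, g1, g2]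
    ring
  · rw [s1]
    rw [h1, h2] at h5
    rw [g1, g2] at g5
    have n1 : (0 : ℝ) ≤ aP := le_trans (Nat.cast_nonneg _) h3
    have n2 : (0 : ℝ) ≤ aQ := le_trans (Nat.cast_nonneg _) h4
    have n3 : (0 : ℝ) ≤ dQ := le_trans (Nat.cast_nonneg _) g3
    have n4 : (0 : ℝ) ≤ dP := le_trans (Nat.cast_nonneg _) g4
    have m1 : x j * ((r / 2 : ℕ) : ℝ) ≤ x j * dP := mul_le_mul_of_nonneg_left g4 (by linarith)
    have m2 : x (j + 3) * ((j / 2 : ℕ) : ℝ) ≤ x (j + 3) * aQ :=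
      mul_le_mul_of_nonneg_left h4 (by linarith)
    have m3 : 0 ≤ aP * dQ := mul_nonneg n1 n3
    have m4 : 0 ≤ aQ * dP := mul_nonneg n2 n4
    rw [show j + 1 + 1 = j + 2 by ring]
    push_cast at *
    nlinarith

lemma star1 (x : ℕ → ℝ) (r : ℕ) (hx : ∀ i, i < r + 3 → 1 ≤ x i) :
    ∃ (p q : ℕ) (wP wQ : ℝ), p + q = r ∧ (p : ℝ) ≤ wP ∧ (q : ℝ) ≤ wQ ∧
      x 0 + x 2 + wP + (x 1 + wQ) = ∑ i ∈ range (r + 3), x i ∧
      U x (r + 2) ≤ (x 0 + x 2 + wP) * (x 1 + wQ)
        - x 0 * wQ - x 1 * wP - x 2 * (q - 1) := by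
  obtain ⟨dQ, dP, g1, g2, g3, g4, g5⟩ := prefix_est (x := rev (r + 3) x) (j := r)
    (fun i hi => hx _ (by omega))
  have e1 : rev (r + 3) x (r + 1) = x 1 := by
    unfold rev; congr 1; omega
  have e2 : rev (r + 3) x r = x 2 := by
    unfold rev; congr 1; omega
  rw [e1] at g1 g5
  rw [e2] at g2 g5
  have s1 := split_U x 0 (r + 1)
  rw [show 0 + (r + 1) + 1 = r + 2 by ring, show 0 + (r + 1) + 2 = r + 3 by ring] at s1
  have s2 := split_sum x 0 (r + 1)
  rw [show 0 + (r + 1) + 2 = r + 3 by ring] at s2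
  rw [← pg_sum x 0, ← pg_sum (rev (r + 3) x) (r + 1)] at s2
  have hb := hx 0 (by omega)
  have hc := hx 1 (by omega)
  have hD := hx 2 (by omega)
  have n3 : (0 : ℝ) ≤ dQ := le_trans (Nat.cast_nonneg _) g3
  have n4 : (0 : ℝ) ≤ dP := le_trans (Nat.cast_nonneg _) g4
  refine ⟨r / 2, (r + 1) / 2, dP, dQ, by omega, g4, g3, ?_, ?_⟩
  · rw [s2, g1, g2]
    simp only [pg]
    ring
  · rw [s1]
    rw [g1, g2] at g5
    have : U x 0 = 0 := by simp [U]
    rw [this]
    rw [show 0 + 1 = 1 from rfl]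
    nlinarith

/-! ### algebra -/

lemma alg1 {b c A D wP wQ E L p q N : ℝ} (hN : b + D + wP + (c + A + wQ) = N)
    (hE : E ≤ (b + D + wP) * (c + A + wQ) - b * wQ - c * wP - A * (p - 1) - D * (q - 1) - A * D)
    (hP : p ≤ wP) (hQ : q ≤ wQ) (hD : 1 ≤ D) (hA : L + 2 ≤ A) (hb : L + p ≤ b)
    (hc : L + q + 1 ≤ c) :
    E + L * (wP + wQ + D) - b ≤ N ^ 2 / 4 - (p + q + 1) * N / 2 + (q - p + 1) ^ 2 / 4
      + 2 * p * q + p + L * (p + q) + L + 2 := by
  have h1 : 0 ≤ (b - L - p) * (wQ - q) := mul_nonneg (by linarith) (by linarith)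
  have h2 : 0 ≤ (c - L - q - 1) * (wP - p) := mul_nonneg (by linarith) (by linarith)
  have h3 : 0 ≤ (D - 1) * (A - L - 2) := mul_nonneg (by linarith) (by linarith)
  have h4 := sq_nonneg ((b + D + wP) - (c + A + wQ) + (q - p + 1))
  subst hN
  nlinarith

lemma alg3 {b c A D wP wQ E L p q N : ℝ} (hN : b + D + wP + (c + A + wQ) = N)
    (hE : E ≤ (b + D + wP) * (c + A + wQ) - b * wQ - c * wP - A * (p - 1) - D * (q - 1) - A * D)
    (hP : p ≤ wP) (hQ : q ≤ wQ) (hL : 0 ≤ L) (hD0 : 0 ≤ D) (hA0 : 0 ≤ A)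
    (hD : D ≤ L + 2) (hA : A ≤ L + 2) (hb : L + p + 1 ≤ b)
    (hc : L + q + 1 ≤ c) :
    E + L * (wP + wQ + A + D) - b - c ≤ N ^ 2 / 4 - (p + q) * N / 2 - N + (p - q) ^ 2 / 4
      + 2 * p * q + (L + 1) * (p + q) + 2 * (L + 2) ^ 2 := by
  have h1 : 0 ≤ (b - L - p - 1) * (wQ - q) := mul_nonneg (by linarith) (by linarith)
  have h2 : 0 ≤ (c - L - q - 1) * (wP - p) := mul_nonneg (by linarith) (by linarith)
  have h3 : 0 ≤ (L + 2) * ((L + 2 - A) + (L + 2 - D)) := mul_nonneg (by linarith) (by linarith)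
  have h5 : 0 ≤ A * D := mul_nonneg hA0 hD0
  have h4 := sq_nonneg ((b + D + wP) - (c + A + wQ) - (p - q))
  subst hN
  nlinarith

lemma alg4 {b c D wP wQ E L p q N : ℝ} (hN : b + D + wP + (c + wQ) = N)
    (hE : E ≤ (b + D + wP) * (c + wQ) - b * wQ - c * wP - D * (q - 1))
    (hP : p ≤ wP) (hQ : q ≤ wQ) (hp : 0 ≤ p) (hL : 0 ≤ L) (hb : L + p + 1 ≤ b)
    (hc : L + q ≤ c) :
    E + L * (wP + wQ) - c ≤ N ^ 2 / 4 - (p + q) * N / 2 + (p - q + 2) ^ 2 / 4
      + 2 * p * q + q + L * (p + q) := by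
  have h1 : 0 ≤ (b - L - p - 1) * (wQ - q) := mul_nonneg (by linarith) (by linarith)
  have h2 : 0 ≤ (c - L - q) * (wP - p) := mul_nonneg (by linarith) (by linarith)
  have h4 := sq_nonneg ((b + D + wP) - (c + wQ) - (p - q + 2))
  have h5 : 0 ≤ b := by linarith
  subst hN
  nlinarith

end Run7.h487.GO
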