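import Pool.Agent.Run7.h487.GO.B

set_option autoImplicit false

/-! The upper bound. -/

namespace Run7.h487.GO

open Finset
open Pool.Agent.Results.MP_ac85ec_co.FourLevels (a)

/-- the bound for the exponent -/
noncomputable def RR (k : ℕ) (N L : ℝ) : ℝ :=
  N ^ 2 / 4 - ((k : ℝ) - 3) * N / 2 + k * L + 3 * k ^ 2 + 2

lemma U_rev (x : ℕ → ℝ) (k : ℕ) : U (rev k x) (k - 1) = U x (k - 1) := by
  unfold U
  rw [← sum_range_reflect]
  refine sum_congr rfl fun i hi => ?_
  rw [mem_range] at hi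
  unfold rev
  rw [show k - 1 - (k - 1 - 1 - i) = i + 1 by omega, show k - 1 - (k - 1 - 1 - i + 1) = i by omega]
  ring

lemma sum_rev (x : ℕ → ℝ) (k : ℕ) : ∑ i ∈ range k, rev k x i = ∑ i ∈ range k, x i := by
  rw [← sum_range_reflect]
  refine sum_congr rfl fun i hi => ?_
  rw [mem_range] at hi
  unfold rev
  congr 1
  omega

lemma const1 {p q k L : ℝ} (hp : 0 ≤ p) (hq : 0 ≤ q) (hk : 5 ≤ k) (h : p + q = k - 4) (hL : 0 ≤ L) :
    (q - p + 1) ^ 2 / 4 + 2 * p * q + p + L * (p + q) + L + 2 ≤ k * L + 3 * k ^ 2 + 2 := by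
  have : q = k - 4 - p := by linarith
  subst this
  nlinarith [mul_nonneg hp hq, sq_nonneg p, mul_nonneg hp hL, mul_nonneg hq hL]

lemma const3 {p q k L N : ℝ} (hp : 0 ≤ p) (hq : 0 ≤ q) (hk : 5 ≤ k) (h : p + q = k - 4)
    (hL : 0 ≤ L) (hN : 4 * (L + 2) ^ 2 ≤ N) :
    - N / 2 + (p - q) ^ 2 / 4 + 2 * p * q + (L + 1) * (p + q) + 2 * (L + 2) ^ 2 ≤
      k * L + 3 * k ^ 2 + 2 := by
  have : q = k - 4 - p := by linarith
  subst this
  nlinarith [mul_nonneg hp hq, sq_nonneg p, mul_nonneg hp hL, mul_nonneg hq hL]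

lemma const4 {p q k L : ℝ} (hp : 0 ≤ p) (hq : 0 ≤ q) (hk : 5 ≤ k) (h : p + q = k - 3)
    (hL : 0 ≤ L) :
    (p - q + 2) ^ 2 / 4 + 2 * p * q + q + L * (p + q) ≤ k * L + 3 * k ^ 2 + 2 := by
  have : q = k - 3 - p := by linarith
  subst this
  nlinarith [mul_nonneg hp hq, sq_nonneg p, mul_nonneg hp hL, mul_nonneg hq hL]

lemma types (x : ℕ → ℝ) (k j : ℕ) (hk : 5 ≤ k) (L : ℝ) (hL : 0 ≤ L) (hx : ∀ i, i < k → 1 ≤ x i)
    (hj : j + 1 < k) (h1 : L + k + 1 ≤ x j) (h2 : L + k + 1 ≤ x (j + 1)) (N : ℝ)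
    (hN : ∑ i ∈ range k, x i = N) (hNL : 4 * (L + 2) ^ 2 ≤ N) :
    (∃ i, 1 ≤ i ∧ i + 1 < k ∧
      U x (k - 1) + L * (N - x (i - 1) - x i - x (i + 1)) - x i ≤ RR k N L) ∨
    U x (k - 1) + L * (N - x j - x (j + 1)) - x j - x (j + 1) ≤ RR k N L := by
  have hkR : (5 : ℝ) ≤ k := by exact_mod_cast hk
  by_cases hj0 : j = 0
  · subst hj0
    left
    refine ⟨1, le_rfl, by omega, ?_⟩
    obtain ⟨p, q, wP, wQ, hpq, hp, hq, hs, hE⟩ := star1 x (k - 3) (fun i hi => hx i (by omega))
    rw [show k - 3 + 3 = k by omega, hN] at hs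
    rw [show k - 3 + 2 = k - 1 by omega] at hE
    have hpk : (p : ℝ) + q = k - 3 := by
      have : ((p + q + 3 : ℕ) : ℝ) = k := by
        congr 1
        omega
      push_cast at this
      linarith
    have hp0 : (0 : ℝ) ≤ p := Nat.cast_nonneg _
    have hq0 : (0 : ℝ) ≤ q := Nat.cast_nonneg _
    have := alg4 (L := L) hs hE hp hq hp0 hL (by linarith) (by simpa using (by linarith : L + q ≤ x (0 + 1)))
    have h3 := const4 hp0 hq0 hkR hpk hL
    unfold RR
    have e : L * (N - x (1 - 1) - x 1 - x (1 + 1)) = L * (wP + wQ) := by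
      rw [show 1 - 1 = 0 from rfl, show 1 + 1 = 2 from rfl]
      congr 1
      linarith
    rw [e]
    rw [hpk] at this h3
    linarith
  by_cases hjk : j + 2 = k
  · left
    refine ⟨j, by omega, by omega, ?_⟩
    obtain ⟨p, q, wP, wQ, hpq, hp, hq, hs, hE⟩ := star1 (rev k x) (k - 3)
      (fun i hi => hx _ (by omega))
    rw [show k - 3 + 3 = k by omega, sum_rev, hN] at hs
    rw [show k - 3 + 2 = k - 1 by omega, U_rev] at hE
    have r0 : rev k x 0 = x (j + 1) := by unfold rev; congr 1; omega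
    have r1 : rev k x 1 = x j := by unfold rev; congr 1; omega
    have r2 : rev k x 2 = x (j - 1) := by unfold rev; congr 1; omega
    rw [r0, r1, r2] at hs hE
    have hpk : (p : ℝ) + q = k - 3 := by
      have : ((p + q + 3 : ℕ) : ℝ) = k := by
        congr 1
        omega
      push_cast at this
      linarith
    have hp0 : (0 : ℝ) ≤ p := Nat.cast_nonneg _
    have hq0 : (0 : ℝ) ≤ q := Nat.cast_nonneg _
    have := alg4 (L := L) hs hE hp hq hp0 hL (by linarith) (by linarith)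
    have h3 := const4 hp0 hq0 hkR hpk hL
    unfold RR
    have e : L * (N - x (j - 1) - x j - x (j + 1)) = L * (wP + wQ) := by
      congr 1
      linarith
    rw [e]
    rw [hpk] at this h3
    linarith
  · obtain ⟨i, rfl⟩ : ∃ i, j = i + 1 := ⟨j - 1, by omega⟩
    obtain ⟨r, rfl⟩ : ∃ r, k = i + r + 4 := ⟨k - i - 4, by omega⟩
    obtain ⟨p, q, wP, wQ, hpq, hp, hq, hs, hE⟩ := star2 x i r hx
    rw [hN] at hs
    rw [show i + r + 4 - 1 = i + r + 3 by omega]
    rw [show i + 1 + 1 = i + 2 by ring] at h2 ⊢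
    have hpk : (p : ℝ) + q = ((i + r + 4 : ℕ) : ℝ) - 4 := by
      have : ((p + q : ℕ) : ℝ) = ((i + r : ℕ) : ℝ) := by rw [hpq]
      push_cast at this ⊢
      linarith
    have hp0 : (0 : ℝ) ≤ p := Nat.cast_nonneg _
    have hq0 : (0 : ℝ) ≤ q := Nat.cast_nonneg _
    have hA1 := hx i (by omega)
    have hD1 := hx (i + 3) (by omega)
    by_cases hA : L + 2 ≤ x i
    · left
      refine ⟨i + 1, by omega, by omega, ?_⟩
      have := alg1 (L := L) hs hE hp hq hD1 hA (by linarith) (by linarith)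
      have h3 := const1 hp0 hq0 hkR hpk hL
      unfold RR
      have e : L * (N - x (i + 1 - 1) - x (i + 1) - x (i + 1 + 1)) = L * (wP + wQ + x (i + 3)) := by
        rw [show i + 1 - 1 = i by omega, show i + 1 + 1 = i + 2 by ring]
        congr 1
        linarith
      rw [e]
      have e2 : (p : ℝ) + q + 1 = ((i + r + 4 : ℕ) : ℝ) - 3 := by linarith
      rw [e2] at this
      linarith
    by_cases hD : L + 2 ≤ x (i + 3)
    · left
      refine ⟨i + 2, by omega, by omega, ?_⟩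
      have hs' : x (i + 2) + x i + wQ + (x (i + 1) + x (i + 3) + wP) = N := by linarith
      have hE' : U x (i + r + 3) ≤ (x (i + 2) + x i + wQ) * (x (i + 1) + x (i + 3) + wP)
        - x (i + 2) * wP - x (i + 1) * wQ - x (i + 3) * (q - 1) - x i * (p - 1)
        - x (i + 3) * x i := by linarith
      have := alg1 (L := L) hs' hE' hq hp hA1 hD (by linarith) (by linarith)
      have h3 := const1 hq0 hp0 hkR (by linarith) hL
      unfold RR
      have e : L * (N - x (i + 2 - 1) - x (i + 2) - x (i + 2 + 1)) = L * (wQ + wP + x i) := by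
        rw [show i + 2 - 1 = i + 1 by omega, show i + 2 + 1 = i + 3 by ring]
        congr 1
        linarith
      rw [e]
      have e2 : (q : ℝ) + p + 1 = ((i + r + 4 : ℕ) : ℝ) - 3 := by linarith
      rw [e2] at this
      linarith
    · right
      have := alg3 (L := L) hs hE hp hq hL (by linarith) (by linarith) (by linarith) (by linarith)
        (by linarith) (by linarith)
      have h3 := const3 hp0 hq0 hkR hpk hL hNL
      unfold RR
      have e : L * (N - x (i + 1) - x (i + 2)) = L * (wP + wQ + x i + x (i + 3)) := by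
        congr 1
        linarith
      rw [e]
      rw [hpk] at this
      rw [hpk] at h3
      linarith

/-! ### weights -/

lemma weight_sum (n k : ℕ) (w : ℕ → ℝ) :
    ∑ l : Fin n → Fin k, (2 : ℝ) ^ (∑ p, w (l p)) = (∑ i ∈ range k, (2 : ℝ) ^ w i) ^ n := by
  have h1 : ∀ l : Fin n → Fin k, (2 : ℝ) ^ (∑ p, w (l p)) = ∏ p, (2 : ℝ) ^ w (l p) := fun l =>
    Real.rpow_sum_of_pos (by norm_num) _ _
  rw [sum_congr rfl fun l _ => h1 l]
  have h2 := Finset.prod_univ_sum (fun _ : Fin n => (univ : Finset (Fin k)))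
    (fun _ i => (2 : ℝ) ^ w i)
  rw [Fintype.piFinset_univ] at h2
  rw [← h2, prod_const, card_univ, Fintype.card_fin, Fin.sum_univ_eq_sum_range (fun i => (2 : ℝ) ^ w i)]

/-- star weights with centre `j` -/
noncomputable def star (L : ℝ) (j i : ℕ) : ℝ :=
  if i = j then 1 else if i + 1 = j then 0 else if i = j + 1 then 0 else -L

/-- pair weights -/
noncomputable def pairW (L : ℝ) (j i : ℕ) : ℝ :=
  if i = j then 1 else if i = j + 1 then 1 else -L

lemma sum_ind (k j : ℕ) (c : ℝ) : ∑ i ∈ range k, (if i = j then c else 0) ≤ max c 0 := by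
  rw [Finset.sum_ite_eq']
  split_ifs
  · exact le_max_left _ _
  · exact le_max_right _ _

lemma sum_ind' (k j : ℕ) (c : ℝ) (hc : 0 ≤ c) :
    ∑ i ∈ range k, (if i + 1 = j then c else 0) ≤ c := by
  rcases Nat.eq_zero_or_pos j with rfl | hj
  · simp [hc]
  · have : ∀ i, (if i + 1 = j then c else 0) = if i = j - 1 then c else 0 := by
      intro i
      by_cases h : i + 1 = j
      · rw [if_pos h, if_pos (by omega)]
      · rw [if_neg h, if_neg (by omega)]
    rw [sum_congr rfl fun i _ => this i]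
    exact (sum_ind k _ c).trans (by rw [max_eq_left hc])

lemma star_bound (L : ℝ) (j k : ℕ) :
    ∑ i ∈ range k, (2 : ℝ) ^ star L j i ≤ 4 + k * (2 : ℝ) ^ (-L) := by
  have h : ∀ i ∈ range k, (2 : ℝ) ^ star L j i ≤ (if i = j then 2 else 0) +
      (if i + 1 = j then 1 else 0) + (if i = j + 1 then 1 else 0) + (2 : ℝ) ^ (-L) := by
    intro i _
    have hp : (0 : ℝ) < (2 : ℝ) ^ (-L) := by positivity
    unfold star
    split_ifs <;> first | omega | (simp; linarith) | simp
  refine (sum_le_sum h).trans ?_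
  rw [sum_add_distrib, sum_add_distrib, sum_add_distrib, sum_const, card_range, nsmul_eq_mul]
  have h1 := sum_ind k j 2
  have h2 := sum_ind' k j 1 (by norm_num)
  have h3 := sum_ind k (j + 1) 1
  rw [max_eq_left (by norm_num)] at h1 h3
  linarith

lemma pair_bound (L : ℝ) (j k : ℕ) :
    ∑ i ∈ range k, (2 : ℝ) ^ pairW L j i ≤ 4 + k * (2 : ℝ) ^ (-L) := by
  have h : ∀ i ∈ range k, (2 : ℝ) ^ pairW L j i ≤ (if i = j then 2 else 0) +
      (if i = j + 1 then 2 else 0) + (2 : ℝ) ^ (-L) := by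
    intro i _
    have hp : (0 : ℝ) < (2 : ℝ) ^ (-L) := by positivity
    unfold pairW
    split_ifs <;> first | omega | (simp; linarith) | simp
  refine (sum_le_sum h).trans ?_
  rw [sum_add_distrib, sum_add_distrib, sum_const, card_range, nsmul_eq_mul]
  have h1 := sum_ind k j 2
  have h3 := sum_ind k (j + 1) 2
  rw [max_eq_left (by norm_num)] at h1 h3
  linarith

lemma star_sum (L : ℝ) (x : ℕ → ℝ) (j k : ℕ) (hj : 1 ≤ j) (hk : j + 1 < k) :
    ∑ i ∈ range k, x i * star L j i =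
      x j - L * (∑ i ∈ range k, x i - x (j - 1) - x j - x (j + 1)) := by
  have h : ∀ i ∈ range k, x i * star L j i = -L * x i + (if i = j then (1 + L) * x i else 0) +
      (if i = j - 1 then L * x i else 0) + (if i = j + 1 then L * x i else 0) := by
    intro i _
    unfold star
    by_cases h1 : i = j
    · rw [if_pos h1, if_pos h1, if_neg (by omega), if_neg (by omega)]; ring
    · rw [if_neg h1, if_neg h1]
      by_cases h2 : i + 1 = j
      · rw [if_pos h2, if_pos (by omega), if_neg (by omega)]; ring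
      · rw [if_neg h2, if_neg (by omega : ¬ i = j - 1)]
        by_cases h3 : i = j + 1
        · rw [if_pos h3, if_pos h3]; ring
        · rw [if_neg h3, if_neg h3]; ring
  rw [sum_congr rfl h, sum_add_distrib, sum_add_distrib, sum_add_distrib, ← mul_sum,
    Finset.sum_ite_eq', Finset.sum_ite_eq', Finset.sum_ite_eq', if_pos (mem_range.2 (by omega)),
    if_pos (mem_range.2 (by omega)), if_pos (mem_range.2 (by omega))]
  ring

lemma pair_sum (L : ℝ) (x : ℕ → ℝ) (j k : ℕ) (hk : j + 1 < k) :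
    ∑ i ∈ range k, x i * pairW L j i =
      x j + x (j + 1) - L * (∑ i ∈ range k, x i - x j - x (j + 1)) := by
  have h : ∀ i ∈ range k, x i * pairW L j i = -L * x i + (if i = j then (1 + L) * x i else 0) +
      (if i = j + 1 then (1 + L) * x i else 0) := by
    intro i _
    unfold pairW
    by_cases h1 : i = j
    · rw [if_pos h1, if_pos h1, if_neg (by omega)]; ring
    · rw [if_neg h1, if_neg h1]
      by_cases h3 : i = j + 1
      · rw [if_pos h3, if_pos h3]; ring
      · rw [if_neg h3, if_neg h3]; ring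
  rw [sum_congr rfl h, sum_add_distrib, sum_add_distrib, ← mul_sum,
    Finset.sum_ite_eq', Finset.sum_ite_eq', if_pos (mem_range.2 (by omega)),
    if_pos (mem_range.2 (by omega))]
  ring

/-- the pointwise bound for the number of arcs -/
lemma arcs_bound (n k : ℕ) (hk : 5 ≤ k) (L : ℝ) (hL : 0 ≤ L) (hNL : 4 * (L + 2) ^ 2 ≤ n)
    (l : Fin n → Fin k) (hl : Function.Surjective l) :
    (2 : ℝ) ^ ((arcs l).card : ℝ) ≤ (2 : ℝ) ^ (2 * (L + k + 1) * n) +
      ∑ j ∈ range k, (2 : ℝ) ^ (RR k n L) * (2 : ℝ) ^ (∑ p, star L j (l p)) +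
      ∑ j ∈ range k, (2 : ℝ) ^ (RR k n L) * (2 : ℝ) ^ (∑ p, pairW L j (l p)) := by
  set x : ℕ → ℝ := fun i => (sz l i : ℝ) with hx
  have hx1 : ∀ i, i < k → 1 ≤ x i := fun i hi => by
    have := sz_pos l hl i hi
    show (1 : ℝ) ≤ ((sz l i : ℕ) : ℝ)
    exact_mod_cast this
  have hx0 : ∀ i, 0 ≤ x i := fun i => Nat.cast_nonneg _
  have hN : ∑ i ∈ range k, x i = n := sum_sz l
  have hE : ((arcs l).card : ℝ) = U x (k - 1) := by
    rw [card_arcs]
    unfold U
    obtain ⟨m, rfl⟩ : ∃ m, k = m + 1 := ⟨k - 1, by omega⟩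
    rw [sum_range_succ, sz_top]
    simp [hx]
  have hs0 : ∀ w : ℕ → ℕ → ℝ, 0 ≤ ∑ j ∈ range k, (2 : ℝ) ^ (RR k n L) * (2 : ℝ) ^ (∑ p, w j (l p)) :=
    fun w => sum_nonneg fun j _ => by positivity
  have hpos : (0 : ℝ) ≤ (2 : ℝ) ^ (2 * (L + k + 1) * n) := by positivity
  have hle : ∀ (w : ℕ → ℕ → ℝ) (j : ℕ), j < k → (2 : ℝ) ^ (RR k n L) * (2 : ℝ) ^ (∑ p, w j (l p)) ≤
      ∑ j ∈ range k, (2 : ℝ) ^ (RR k n L) * (2 : ℝ) ^ (∑ p, w j (l p)) := by
    intro w j hj
    exact single_le_sum (f := fun j => (2 : ℝ) ^ (RR k n L) * (2 : ℝ) ^ (∑ p, w j (l p)))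
      (fun i _ => by positivity) (mem_range.2 hj)
  by_cases h : ∃ j, j + 1 < k ∧ L + k + 1 ≤ x j ∧ L + k + 1 ≤ x (j + 1)
  · obtain ⟨j, hj, h1, h2⟩ := h
    rcases types x k j hk L hL hx1 hj h1 h2 n hN hNL with ⟨i, hi1, hik, h3⟩ | h3
    · have e : ∑ p, star L i (l p) = ∑ i' ∈ range k, x i' * star L i i' :=
        sum_level l (star L i)
      have e2 := star_sum L x i k hi1 hik
      have : (2 : ℝ) ^ ((arcs l).card : ℝ) ≤
          (2 : ℝ) ^ (RR k n L) * (2 : ℝ) ^ (∑ p, star L i (l p)) := by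
        rw [← Real.rpow_add (by norm_num)]
        apply Real.rpow_le_rpow_of_exponent_le (by norm_num)
        rw [hE, e, e2, hN]
        linarith
      have h4 := hle (star L) i (by omega)
      have h5 := hs0 (pairW L)
      linarith
    · have e : ∑ p, pairW L j (l p) = ∑ i' ∈ range k, x i' * pairW L j i' :=
        sum_level l (pairW L j)
      have e2 := pair_sum L x j k hj
      have : (2 : ℝ) ^ ((arcs l).card : ℝ) ≤
          (2 : ℝ) ^ (RR k n L) * (2 : ℝ) ^ (∑ p, pairW L j (l p)) := by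
        rw [← Real.rpow_add (by norm_num)]
        apply Real.rpow_le_rpow_of_exponent_le (by norm_num)
        rw [hE, e, e2, hN]
        linarith
      have h4 := hle (pairW L) j (by omega)
      have h5 := hs0 (star L)
      linarith
  · push Not at h
    have hT : 0 ≤ L + k + 1 := by positivity
    have hU : U x (k - 1) ≤ 2 * (L + k + 1) * n := by
      unfold U
      have h1 : ∀ i ∈ range (k - 1), x i * x (i + 1) ≤ (L + k + 1) * (x i + x (i + 1)) := by
        intro i hi
        rw [mem_range] at hi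
        rcases le_or_gt (L + k + 1) (x i) with h2 | h2
        · have h3 := h i (by omega) h2
          nlinarith [hx0 i, hx0 (i + 1)]
        · nlinarith [hx0 i, hx0 (i + 1)]
      refine (sum_le_sum h1).trans ?_
      rw [← mul_sum, sum_add_distrib]
      have h2 : ∑ i ∈ range (k - 1), x i ≤ n := by
        rw [← hN]
        exact sum_le_sum_of_subset_of_nonneg (range_subset_range.2 (by omega)) (fun i _ _ => hx0 i)
      have h3 : ∑ i ∈ range (k - 1), x (i + 1) ≤ n := by
        rw [← hN]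
        have : ∑ i ∈ range k, x i = ∑ i ∈ range (k - 1), x (i + 1) + x 0 := by
          rw [← sum_range_succ', show k - 1 + 1 = k by omega]
        rw [this]
        linarith [hx0 0]
      nlinarith
    have : (2 : ℝ) ^ ((arcs l).card : ℝ) ≤ (2 : ℝ) ^ (2 * (L + k + 1) * n) := by
      apply Real.rpow_le_rpow_of_exponent_le (by norm_num)
      rw [hE]
      exact hU
    have h5 := hs0 (star L)
    have h6 := hs0 (pairW L)
    linarith

/-- The upper bound before taking logarithms. -/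
lemma upper (n k : ℕ) (hk : 5 ≤ k) (L : ℝ) (hL : 0 ≤ L) (hNL : 4 * (L + 2) ^ 2 ≤ n) :
    (a k n : ℝ) ≤ (k : ℝ) ^ n * (2 : ℝ) ^ (2 * (L + k + 1) * n) +
      2 * k * ((2 : ℝ) ^ (RR k n L) * (4 + k * (2 : ℝ) ^ (-L)) ^ n) := by
  have h1 : (a k n : ℝ) ≤ ∑ l ∈ univ.filter (fun l : Fin n → Fin k => Function.Surjective l),
      (2 : ℝ) ^ ((arcs l).card : ℝ) := by
    have := a_le (n := n) k
    have h2 : ((a k n : ℕ) : ℝ) ≤ ((∑ l ∈ univ.filter
      (fun l : Fin n → Fin k => Function.Surjective l), 2 ^ (arcs l).card : ℕ) : ℝ) := by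
      exact_mod_cast this
    push_cast at h2
    simp only [Real.rpow_natCast]
    exact h2
  refine h1.trans ?_
  refine (sum_le_sum fun l hl => arcs_bound n k hk L hL hNL l (mem_filter.1 hl).2).trans ?_
  refine (sum_le_sum_of_subset_of_nonneg (subset_univ _) fun l _ _ => by positivity).trans ?_
  rw [sum_add_distrib, sum_add_distrib, sum_const, card_univ, Fintype.card_fun, Fintype.card_fin,
    Fintype.card_fin, nsmul_eq_mul, sum_comm, sum_comm (s := univ) (t := range k)]
  have hw : ∀ (w : ℕ → ℕ → ℝ), (∀ j, ∑ i ∈ range k, (2 : ℝ) ^ w j i ≤ 4 + k * (2 : ℝ) ^ (-L)) →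
      ∑ j ∈ range k, ∑ l : Fin n → Fin k, (2 : ℝ) ^ (RR k n L) * (2 : ℝ) ^ (∑ p, w j (l p)) ≤
      k * ((2 : ℝ) ^ (RR k n L) * (4 + k * (2 : ℝ) ^ (-L)) ^ n) := by
    intro w hw
    have h2 : ∀ j ∈ range k, ∑ l : Fin n → Fin k,
        (2 : ℝ) ^ (RR k n L) * (2 : ℝ) ^ (∑ p, w j (l p)) ≤
        (2 : ℝ) ^ (RR k n L) * (4 + k * (2 : ℝ) ^ (-L)) ^ n := by
      intro j _
      rw [← mul_sum, weight_sum]
      apply mul_le_mul_of_nonneg_left _ (by positivity)
      exact pow_le_pow_left₀ (sum_nonneg fun i _ => by positivity) (hw j) n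
    refine (sum_le_sum h2).trans ?_
    rw [sum_const, card_range, nsmul_eq_mul]
  have h3 := hw (star L) (fun j => star_bound L j k)
  have h4 := hw (pairW L) (fun j => pair_bound L j k)
  push_cast
  linarith

end Run7.h487.GO
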