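import Pool.Agent.Run7.h487.GO.A

set_option autoImplicit false

/-! The lower bound: counting. -/

namespace Run7.h487.GO

open Finset
open Pool.Agent.Results.MP_ac85ec_co.FourLevels (a)

/-- Union bound for sets of arcs meeting prescribed sets. -/
lemma union_bound {E ι : Type} [DecidableEq E] [DecidableEq ι] (X F : Finset E) (hF : F ⊆ X)
    (I : Finset ι) (B : ι → Finset E) (s : ℕ) (hB : ∀ i ∈ I, B i ⊆ X) (hs : ∀ i ∈ I, s ≤ (B i).card)
    (hI : 2 * I.card ≤ 2 ^ s) :
    2 ^ (X.card - F.card) ≤ 2 * (X.powerset.filter fun A => F ⊆ A ∧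
      ∀ i ∈ I, (A ∩ B i).Nonempty).card := by
  classical
  have hall : (X.powerset.filter fun A => F ⊆ A).card = 2 ^ (X.card - F.card) := by
    have : (X.powerset.filter fun A => F ⊆ A) = Finset.Icc F X := by
      ext A
      simp only [mem_filter, mem_powerset, mem_Icc]
      exact and_comm
    rw [this, Finset.card_Icc_finset hF]
  have hbad : ∀ i ∈ I, 2 ^ s * (X.powerset.filter fun A => F ⊆ A ∧ A ∩ B i = ∅).card ≤
      2 ^ (X.card - F.card) := by
    intro i hi
    by_cases hd : Disjoint F (B i)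
    · have : (X.powerset.filter fun A => F ⊆ A ∧ A ∩ B i = ∅) = Finset.Icc F (X \ B i) := by
        ext A
        simp only [mem_filter, mem_powerset, mem_Icc, subset_sdiff,
          Finset.disjoint_iff_inter_eq_empty]
        tauto
      have hFX : F ⊆ X \ B i := by
        rw [subset_sdiff]
        exact ⟨hF, hd⟩
      rw [this, Finset.card_Icc_finset hFX, card_sdiff_of_subset (hB i hi), ← pow_add]
      apply Nat.pow_le_pow_right (by norm_num)
      have h1 := hs i hi
      have h2 : F.card ≤ (X \ B i).card := card_le_card hFX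
      rw [card_sdiff_of_subset (hB i hi)] at h2
      have h3 := card_le_card (hB i hi)
      omega
    · have : (X.powerset.filter fun A => F ⊆ A ∧ A ∩ B i = ∅) = ∅ := by
        rw [filter_eq_empty_iff]
        rintro A _ ⟨h1, h2⟩
        apply hd
        rw [Finset.disjoint_iff_inter_eq_empty]
        exact Finset.subset_empty.1 (h2 ▸ Finset.inter_subset_inter_right h1)
      rw [this]
      simp
  have hcover : (X.powerset.filter fun A => F ⊆ A) ⊆
      (X.powerset.filter fun A => F ⊆ A ∧ ∀ i ∈ I, (A ∩ B i).Nonempty) ∪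
      I.biUnion fun i => X.powerset.filter fun A => F ⊆ A ∧ A ∩ B i = ∅ := by
    intro A hA
    rw [mem_filter] at hA
    rw [mem_union, mem_biUnion]
    by_cases h : ∀ i ∈ I, (A ∩ B i).Nonempty
    · left
      rw [mem_filter]
      exact ⟨hA.1, hA.2, h⟩
    · right
      push Not at h
      obtain ⟨i, hi, h⟩ := h
      exact ⟨i, hi, mem_filter.2 ⟨hA.1, hA.2, h⟩⟩
  have h1 := (card_le_card hcover).trans (card_union_le _ _)
  rw [hall] at h1
  have h2 : (I.biUnion fun i => X.powerset.filter fun A => F ⊆ A ∧ A ∩ B i = ∅).card ≤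
      ∑ i ∈ I, (X.powerset.filter fun A => F ⊆ A ∧ A ∩ B i = ∅).card := card_biUnion_le
  have h3 : 2 ^ s * ∑ i ∈ I, (X.powerset.filter fun A => F ⊆ A ∧ A ∩ B i = ∅).card ≤
      I.card * 2 ^ (X.card - F.card) := by
    rw [mul_sum]
    refine (sum_le_sum hbad).trans ?_
    rw [sum_const, smul_eq_mul]
  set S := ∑ i ∈ I, (X.powerset.filter fun A => F ⊆ A ∧ A ∩ B i = ∅).card
  set T := 2 ^ (X.card - F.card)
  have h4 : 2 ^ s * (2 * S) ≤ 2 ^ s * T := by
    calc 2 ^ s * (2 * S) = 2 * (2 ^ s * S) := by ring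
      _ ≤ 2 * (I.card * T) := by omega
      _ = (2 * I.card) * T := by ring
      _ ≤ 2 ^ s * T := Nat.mul_le_mul_right _ hI
  have h5 : 2 * S ≤ T := Nat.le_of_mul_le_mul_left h4 (by positivity)
  omega

variable {n : ℕ}

/-- possible arcs of a level function with values in `ℕ` -/
def X (l : Fin n → ℕ) : Finset (Fin n × Fin n) := univ.filter fun e => l e.1 + 1 = l e.2

/-- the elements of level `i` -/
def Lv (l : Fin n → ℕ) (i : ℕ) : Finset (Fin n) := univ.filter fun p => l p = i

lemma mem_X {l : Fin n → ℕ} {x y : Fin n} : (x, y) ∈ X l ↔ l x + 1 = l y := by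
  unfold X; simp

lemma mem_Lv {l : Fin n → ℕ} {i : ℕ} {x : Fin n} : x ∈ Lv l i ↔ l x = i := by
  unfold Lv; simp

lemma good_of {l : Fin n → ℕ} {A : Finset (Fin n × Fin n)} (hA : A ⊆ X l) (p0 u0 : Fin n)
    (S0 : Finset (Fin n)) (h0 : l p0 = 0) (h1 : (p0, u0) ∈ A) (h2 : ∀ y ∈ S0, (u0, y) ∈ A)
    (h3 : ∀ v, l v = 1 → ∃ y ∈ S0, (v, y) ∈ A) (h4 : ∀ p, 2 ≤ l p → ∃ x, (x, p) ∈ A) :
    Good l A := by
  have hlev : ∀ x y, (x, y) ∈ A → l x + 1 = l y := fun x y h => mem_X.1 (hA h)
  refine ⟨hlev, ?_⟩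
  have key : ∀ (m : ℕ) (p : Fin n), l p = m + 1 →
      Relation.EqvGen (fun x y => (x, y) ∈ A) p p0 := by
    intro m
    induction m with
    | zero =>
      intro p hp
      obtain ⟨y, hy, hpy⟩ := h3 p (by omega)
      exact (Relation.EqvGen.rel _ _ hpy).trans _ _ _
        ((Relation.EqvGen.rel _ _ (h2 y hy)).symm _ _ |>.trans _ _ _
          ((Relation.EqvGen.rel _ _ h1).symm _ _))
    | succ m ih =>
      intro p hp
      obtain ⟨x, hx⟩ := h4 p (by omega)
      have := hlev _ _ hx
      exact ((Relation.EqvGen.rel _ _ hx).symm _ _).trans _ _ _ (ih x (by omega))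
  intro p
  rcases Nat.eq_zero_or_pos (l p) with h | h
  · exact ⟨p, Relation.EqvGen.refl _, h⟩
  · exact ⟨p0, key (l p - 1) p (by omega), h0⟩

open scoped Classical in
/-- The number of good arc sets of a level function. -/
lemma count_good (l : Fin n → ℕ) (s : ℕ) (p0 u0 p4 : Fin n) (S0 : Finset (Fin n))
    (Ch : Finset (Fin n × Fin n)) (h0 : l p0 = 0) (hu : l u0 = 1) (h4 : l p4 = 4)
    (hS : S0 ⊆ Lv l 2) (hSc : S0.card = s) (hn : 2 * n ≤ 2 ^ s)
    (h1s : s ≤ (Lv l 1).card) (h2s : s ≤ (Lv l 2).card) (h3s : s ≤ (Lv l 3).card)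
    (hCh : ∀ e ∈ Ch, l e.1 + 1 = l e.2 ∧ 4 ≤ l e.1) (hCh2 : ∀ p, 5 ≤ l p → ∃ x, (x, p) ∈ Ch) :
    2 ^ ((Lv l 1).card + (Lv l 1).card * (Lv l 2).card + (Lv l 2).card * (Lv l 3).card
      + (Lv l 3).card - 1 - s) ≤
      2 * ((univ : Finset (Finset (Fin n × Fin n))).filter fun A => Good l A).card := by
  set F : Finset (Fin n × Fin n) := Ch ∪ ({(p0, u0)} ∪ ({u0} ×ˢ S0)) with hF
  set I : Finset (Fin n) := univ.filter fun p => 1 ≤ l p ∧ l p ≤ 4 with hI
  set B : Fin n → Finset (Fin n × Fin n) := fun p =>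
    if l p = 1 then {p} ×ˢ S0 else Lv l (l p - 1) ×ˢ {p} with hB
  set P : Finset (Fin n × Fin n) := ({p0} ×ˢ Lv l 1) ∪ ((Lv l 1 ×ˢ Lv l 2) ∪
    ((Lv l 2 ×ˢ Lv l 3) ∪ (Lv l 3 ×ˢ {p4}))) with hP
  have hFX : F ⊆ X l := by
    intro e he
    rw [hF, mem_union, mem_union, mem_singleton, mem_product, mem_singleton] at he
    rcases he with he | he | he
    · obtain ⟨x, y⟩ := e
      exact mem_X.2 (hCh _ he).1
    · rw [he]
      exact mem_X.2 (by omega)
    · obtain ⟨x, y⟩ := e
      have := mem_Lv.1 (hS he.2)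
      simp only at he this
      rw [mem_X, he.1]
      omega
  have hBX : ∀ i ∈ I, B i ⊆ X l := by
    intro p hp e he
    rw [hI, mem_filter] at hp
    rw [hB] at he
    simp only at he
    obtain ⟨x, y⟩ := e
    split_ifs at he with h
    · rw [mem_product, mem_singleton] at he
      have := mem_Lv.1 (hS he.2)
      simp only at he this
      rw [mem_X, he.1]
      omega
    · rw [mem_product, mem_singleton, mem_Lv] at he
      simp only at he
      rw [mem_X, he.1, he.2]
      omega
  have hBc : ∀ i ∈ I, s ≤ (B i).card := by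
    intro p hp
    rw [hI, mem_filter] at hp
    rw [hB]
    simp only
    split_ifs with h
    · rw [card_product, card_singleton, one_mul, hSc]
    · rw [card_product, card_singleton, mul_one]
      have : l p = 2 ∨ l p = 3 ∨ l p = 4 := by omega
      rcases this with h | h | h <;> rw [h] <;> assumption
  have hIc : 2 * I.card ≤ 2 ^ s := by
    have : I.card ≤ n := by
      have := card_le_univ I
      rwa [Fintype.card_fin] at this
    omega
  have main := union_bound (X l) F hFX I B s hBX hBc hIc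
  have hsub : ((X l).powerset.filter fun A => F ⊆ A ∧ ∀ i ∈ I, (A ∩ B i).Nonempty) ⊆
      (univ : Finset (Finset (Fin n × Fin n))).filter fun A => Good l A := by
    intro A hA
    rw [mem_filter, mem_powerset] at hA
    rw [mem_filter]
    refine ⟨mem_univ _, ?_⟩
    obtain ⟨hAX, hFA, hI2⟩ := hA
    refine good_of hAX p0 u0 S0 h0 (hFA ?_) (fun y hy => hFA ?_) ?_ ?_
    · rw [hF]; simp
    · rw [hF]; simp [hy]
    · intro v hv
      obtain ⟨e, he⟩ := hI2 v (by rw [hI, mem_filter]; exact ⟨mem_univ _, by omega, by omega⟩)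
      rw [mem_inter, hB] at he
      simp only at he
      rw [if_pos hv, mem_product, mem_singleton] at he
      obtain ⟨x, y⟩ := e
      simp only at he
      exact ⟨y, he.2.2, he.2.1 ▸ he.1⟩
    · intro p hp
      by_cases h5 : 5 ≤ l p
      · obtain ⟨x, hx⟩ := hCh2 p h5
        exact ⟨x, hFA (by rw [hF]; exact mem_union_left _ hx)⟩
      · obtain ⟨e, he⟩ := hI2 p (by rw [hI, mem_filter]; exact ⟨mem_univ _, by omega, by omega⟩)
        rw [mem_inter, hB] at he
        simp only at he
        rw [if_neg (by omega), mem_product, mem_singleton] at he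
        obtain ⟨x, y⟩ := e
        simp only at he
        exact ⟨x, he.2.2 ▸ he.1⟩
  have hsub' := card_le_card hsub
  refine le_trans ?_ (main.trans (Nat.mul_le_mul_left 2 (by convert hsub')))
  apply Nat.pow_le_pow_right (by norm_num)
  have hFc : F.card ≤ Ch.card + (1 + s) := by
    rw [hF]
    refine (card_union_le _ _).trans ?_
    have h1 := card_union_le ({(p0, u0)} : Finset (Fin n × Fin n)) ({u0} ×ˢ S0)
    rw [card_singleton, card_product, card_singleton, one_mul, hSc] at h1
    omega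
  have hdis : ∀ {S T S' T' : Finset (Fin n)} {i j : ℕ}, S ⊆ Lv l i → S' ⊆ Lv l j → i ≠ j →
      Disjoint (S ×ˢ T) (S' ×ˢ T') := by
    intro S T S' T' i j h1 h2 hij
    rw [Finset.disjoint_left]
    rintro ⟨x, y⟩ hx hx'
    rw [mem_product] at hx hx'
    have := mem_Lv.1 (h1 hx.1)
    have := mem_Lv.1 (h2 hx'.1)
    simp only at *
    omega
  have hp0 : ({p0} : Finset (Fin n)) ⊆ Lv l 0 := by
    rw [singleton_subset_iff, mem_Lv]; exact h0
  have hPc : P.card = (Lv l 1).card + (Lv l 1).card * (Lv l 2).card +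
      (Lv l 2).card * (Lv l 3).card + (Lv l 3).card := by
    rw [hP, card_union_of_disjoint, card_union_of_disjoint, card_union_of_disjoint,
      card_product, card_product, card_product, card_product, card_singleton, card_singleton]
    · ring
    · exact hdis (i := 2) (j := 3) (Subset.refl _) (Subset.refl _) (by norm_num)
    · rw [disjoint_union_right]
      exact ⟨hdis (i := 1) (j := 2) (Subset.refl _) (Subset.refl _) (by norm_num),
        hdis (i := 1) (j := 3) (Subset.refl _) (Subset.refl _) (by norm_num)⟩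
    · rw [disjoint_union_right, disjoint_union_right]
      exact ⟨hdis (i := 0) (j := 1) hp0 (Subset.refl _) (by norm_num),
        hdis (i := 0) (j := 2) hp0 (Subset.refl _) (by norm_num),
        hdis (i := 0) (j := 3) hp0 (Subset.refl _) (by norm_num)⟩
  have hPX : P ⊆ X l := by
    rintro ⟨x, y⟩ he
    rw [hP] at he
    simp only [mem_union, mem_product, mem_singleton, mem_Lv] at he
    rw [mem_X]
    rcases he with ⟨h, h'⟩ | ⟨h, h'⟩ | ⟨h, h'⟩ | ⟨h, h'⟩
    · rw [h]; omega
    · omega
    · omega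
    · rw [h']; omega
  have hChP : Disjoint Ch P := by
    rw [Finset.disjoint_left]
    rintro ⟨x, y⟩ hx he
    have h5 := (hCh _ hx).2
    rw [hP] at he
    simp only [mem_union, mem_product, mem_singleton, mem_Lv] at he h5
    rcases he with ⟨h, h'⟩ | ⟨h, h'⟩ | ⟨h, h'⟩ | ⟨h, h'⟩
    · rw [h] at h5; omega
    · omega
    · omega
    · omega
  have hChX : Ch ⊆ X l := by
    rintro ⟨x, y⟩ hx
    exact mem_X.2 (hCh _ hx).1
  have hX : Ch.card + P.card ≤ (X l).card := by
    rw [← card_union_of_disjoint hChP]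
    exact card_le_card (union_subset hChX hPX)
  omega

end Run7.h487.GO
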