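import Pool.Agent.Run7.h487.GO.D

set_option autoImplicit false

/-! The lower bound: the level functions. -/

namespace Run7.h487.GO

open Finset
open Pool.Agent.Results.MP_ac85ec_co.FourLevels (a)

variable {n : ℕ}

/-- The level function: `S₁`, `S₂` and the rest of the elements below `m` are the levels `1`, `2` and
`3`; the elements `m`, `m + 1`, `m + 2`, ... are the levels `0`, `4`, `5`, .... -/
def lv (m : ℕ) (S2 S1 : Finset (Fin n)) (p : Fin n) : ℕ :=
  if p.val < m then (if p ∈ S2 then 2 else if p ∈ S1 then 1 else 3)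
  else (if p.val = m then 0 else p.val - m + 3)

/-- the elements below `m` -/
def low (n m : ℕ) : Finset (Fin n) := univ.filter fun p => p.val < m

lemma card_low {m : ℕ} (h : m ≤ n) : (low n m).card = m := by
  unfold low
  have : (univ.filter fun p : Fin n => p.val < m) = (univ : Finset (Fin m)).map
      (Fin.castLEEmb h) := by
    ext p
    simp only [mem_filter, mem_univ, true_and, mem_map]
    constructor
    · intro hp
      exact ⟨⟨p.val, hp⟩, rfl⟩
    · rintro ⟨q, rfl⟩
      exact q.2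
  rw [this, card_map, card_univ, Fintype.card_fin]

lemma Lv2 {m : ℕ} {S2 S1 : Finset (Fin n)} (h2 : S2 ⊆ low n m) : Lv (lv m S2 S1) 2 = S2 := by
  ext p
  rw [mem_Lv]
  unfold lv
  constructor
  · intro h
    split_ifs at h with h1 h2 h3 h4 <;> first | exact h2 | omega
  · intro h
    have := h2 h
    unfold low at this
    rw [mem_filter] at this
    rw [if_pos this.2, if_pos h]

lemma Lv1 {m : ℕ} {S2 S1 : Finset (Fin n)} (h1 : S1 ⊆ low n m \ S2) :
    Lv (lv m S2 S1) 1 = S1 := by
  ext p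
  rw [mem_Lv]
  unfold lv
  constructor
  · intro h
    split_ifs at h with h1 h2 h3 h4 <;> first | exact h3 | omega
  · intro h
    have := h1 h
    unfold low at this
    rw [mem_sdiff, mem_filter] at this
    rw [if_pos this.1.2, if_neg this.2, if_pos h]

lemma Lv3 {m : ℕ} {S2 S1 : Finset (Fin n)} :
    Lv (lv m S2 S1) 3 = (low n m \ S2) \ S1 := by
  ext p
  rw [mem_Lv]
  unfold lv low
  rw [mem_sdiff, mem_sdiff, mem_filter]
  constructor
  · intro h
    split_ifs at h with h1 h2 h3 h4 <;>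
      first | exact ⟨⟨⟨mem_univ _, h1⟩, h2⟩, h3⟩ | (exfalso; omega)
  · rintro ⟨⟨⟨_, h1⟩, h2⟩, h3⟩
    rw [if_pos h1, if_neg h2, if_neg h3]

open scoped Classical in
lemma lower1 (k m s x1 x2 x3 : ℕ) (hk : 5 ≤ k) (hn : n = m + (k - 3))
    (hm : x2 + x1 + x3 = m) (hs : 2 * n ≤ 2 ^ s) (h1 : s ≤ x1) (h2 : s ≤ x2) (h3 : s ≤ x3)
    (S2 S1 : Finset (Fin n)) (hS2 : S2 ∈ powersetCard x2 (low n m))
    (hS1 : S1 ∈ powersetCard x1 (low n m \ S2)) :
    2 ^ (x1 + x1 * x2 + x2 * x3 + x3 - 1 - s) ≤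
      2 * ((univ : Finset (Finset (Fin n × Fin n))).filter fun A => Good (lv m S2 S1) A).card := by
  rw [mem_powersetCard] at hS1 hS2
  have c2 : (Lv (lv m S2 S1) 2).card = x2 := by rw [Lv2 hS2.1, hS2.2]
  have c1 : (Lv (lv m S2 S1) 1).card = x1 := by rw [Lv1 hS1.1, hS1.2]
  have c3 : (Lv (lv m S2 S1) 3).card = x3 := by
    rw [Lv3, card_sdiff_of_subset hS1.1, card_sdiff_of_subset hS2.1, card_low (by omega), hS1.2,
      hS2.2]
    omega
  have hs1 : 1 ≤ s := by
    by_contra h
    have : s = 0 := by omega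
    rw [this] at hs
    omega
  obtain ⟨u0, hu0⟩ : (Lv (lv m S2 S1) 1).Nonempty := by
    rw [← card_pos, c1]; omega
  obtain ⟨S0, hS0, hS0c⟩ := exists_subset_card_eq (s := Lv (lv m S2 S1) 2) (n := s) (by omega)
  have key := count_good (lv m S2 S1) s ⟨m, by omega⟩ u0 ⟨m + 1, by omega⟩ S0
    (univ.filter fun e : Fin n × Fin n => m < e.1.val ∧ e.2.val = e.1.val + 1)
    (by unfold lv; simp) (mem_Lv.1 hu0) (by unfold lv; simp) hS0 hS0c hs (by omega) (by omega)
    (by omega) ?_ ?_
  · rw [c1, c2, c3] at key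
    exact key
  · rintro ⟨x, y⟩ he
    rw [mem_filter] at he
    simp only at he ⊢
    unfold lv
    rw [if_neg (by omega), if_neg (by omega), if_neg (by omega), if_neg (by omega)]
    omega
  · intro p hp
    unfold lv at hp
    split_ifs at hp with h1 h2 h3 h4 <;> first | omega | skip
    refine ⟨⟨p.val - 1, by omega⟩, ?_⟩
    rw [mem_filter]
    refine ⟨mem_univ _, ?_⟩
    simp only
    omega

open scoped Classical in
lemma lower2 (k m s x1 x2 x3 : ℕ) (hk : 5 ≤ k) (hn : n = m + (k - 3))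
    (hm : x2 + x1 + x3 = m) (hs : 2 * n ≤ 2 ^ s) (h1 : s ≤ x1) (h2 : s ≤ x2) (h3 : s ≤ x3) :
    m.choose x2 * (m - x2).choose x1 * 2 ^ (x1 + x1 * x2 + x2 * x3 + x3 - 1 - s) ≤
      2 * a k n := by
  have hs1 : 1 ≤ s := by
    by_contra h
    have : s = 0 := by omega
    rw [this] at hs
    omega
  set D := (powersetCard x2 (low n m)).sigma (fun S2 => powersetCard x1 (low n m \ S2)) with hD
  have hDc : D.card = m.choose x2 * (m - x2).choose x1 := by
    rw [hD, card_sigma]
    have : ∀ S2 ∈ powersetCard x2 (low n m), (powersetCard x1 (low n m \ S2)).card =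
        (m - x2).choose x1 := by
      intro S2 hS2
      rw [mem_powersetCard] at hS2
      rw [card_powersetCard, card_sdiff_of_subset hS2.1, card_low (by omega), hS2.2]
    rw [sum_congr rfl this, sum_const, card_powersetCard, card_low (by omega), smul_eq_mul]
  have hinj : Set.InjOn (fun d : (_ : Finset (Fin n)) × Finset (Fin n) => lv m d.1 d.2) D := by
    rintro ⟨S2, S1⟩ hd ⟨T2, T1⟩ hd' he
    have hd := mem_sigma.1 (mem_coe.1 hd)
    have hd' := mem_sigma.1 (mem_coe.1 hd')
    simp only [mem_powersetCard] at hd hd' he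
    have e2 : S2 = T2 := by
      rw [← Lv2 (S1 := S1) hd.1.1, ← Lv2 (S1 := T1) hd'.1.1, he]
    subst e2
    have e1 : S1 = T1 := by
      rw [← Lv1 hd.2.1, ← Lv1 hd'.2.1, he]
    rw [e1]
  have key := le_a (n := n) k (D.image fun d => lv m d.1 d.2)
    (fun l => (univ : Finset (Finset (Fin n × Fin n))).filter fun A => Good l A) ?_ ?_
  · rw [sum_image (fun x hx y hy h => hinj hx hy h)] at key
    have h5 : D.card * 2 ^ (x1 + x1 * x2 + x2 * x3 + x3 - 1 - s) ≤
        ∑ d ∈ D, 2 * ((univ : Finset (Finset (Fin n × Fin n))).filter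
          fun A => Good (lv m d.1 d.2) A).card := by
      rw [← smul_eq_mul, ← sum_const]
      refine sum_le_sum fun d hd => ?_
      have hd' := mem_sigma.1 hd
      exact lower1 k m s x1 x2 x3 hk hn hm hs h1 h2 h3 d.1 d.2 hd'.1 hd'.2
    rw [← mul_sum, hDc] at h5
    exact h5.trans (Nat.mul_le_mul_left 2 key)
  · intro l hl
    rw [mem_image] at hl
    obtain ⟨⟨S2, S1⟩, hd, rfl⟩ := hl
    have hd' := mem_sigma.1 hd
    simp only at hd'
    have hS2 := mem_powersetCard.1 hd'.1
    have hS1 := mem_powersetCard.1 hd'.2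
    simp only
    refine ⟨fun p => ?_, fun i hi => ?_⟩
    · have := p.2
      unfold lv
      split_ifs <;> omega
    · by_cases hi1 : i = 1
      · subst hi1
        have : (Lv (lv m S2 S1) 1).Nonempty := by
          rw [← card_pos, Lv1 hS1.1, hS1.2]; omega
        obtain ⟨p, hp⟩ := this
        exact ⟨p, mem_Lv.1 hp⟩
      by_cases hi2 : i = 2
      · subst hi2
        have : (Lv (lv m S2 S1) 2).Nonempty := by
          rw [← card_pos, Lv2 hS2.1, hS2.2]; omega
        obtain ⟨p, hp⟩ := this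
        exact ⟨p, mem_Lv.1 hp⟩
      by_cases hi3 : i = 3
      · subst hi3
        have : (Lv (lv m S2 S1) 3).Nonempty := by
          rw [← card_pos, Lv3, card_sdiff_of_subset hS1.1, card_sdiff_of_subset hS2.1,
            card_low (by omega), hS1.2, hS2.2]
          omega
        obtain ⟨p, hp⟩ := this
        exact ⟨p, mem_Lv.1 hp⟩
      by_cases hi0 : i = 0
      · subst hi0
        exact ⟨⟨m, by omega⟩, by unfold lv; simp⟩
      · refine ⟨⟨m + (i - 3), by omega⟩, ?_⟩
        unfold lv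
        simp only
        rw [if_neg (by omega), if_neg (by omega)]
        omega
  · intro l _ A hA
    exact (mem_filter.1 hA).2

lemma middle (m : ℕ) : 2 ^ m ≤ (m + 1) * m.choose (m / 2) := by
  rw [← Nat.sum_range_choose]
  refine (sum_le_sum fun i _ => Nat.choose_le_middle i m).trans ?_
  rw [sum_const, card_range, smul_eq_mul]

/-- The lower bound before taking logarithms. -/
lemma lower (k m s : ℕ) (hk : 5 ≤ k) (hn : n = m + (k - 3)) (hs : 2 * n ≤ 2 ^ s)
    (hms : 4 * s + 8 ≤ m) :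
    2 ^ (m + (m - m / 2) + ((m - m / 2) * (m / 2 + 1) - 1 - s)) ≤ 2 * (m + 1) ^ 2 * a k n := by
  set q := m - m / 2 with hq
  have h := lower2 (n := n) k m s (q / 2) (m / 2) (q - q / 2) hk hn (by omega) hs (by omega)
    (by omega) (by omega)
  have h1 := middle m
  have h2 := middle q
  have e : q / 2 + q / 2 * (m / 2) + m / 2 * (q - q / 2) + (q - q / 2) = q * (m / 2 + 1) := by
    obtain ⟨y, hy⟩ : ∃ y, q = q / 2 + y := ⟨q - q / 2, by omega⟩
    have hy2 : q - q / 2 = y := by omega
    rw [hy2]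
    calc q / 2 + q / 2 * (m / 2) + m / 2 * y + y = (q / 2 + y) * (m / 2 + 1) := by ring
      _ = q * (m / 2 + 1) := by rw [← hy]
  rw [e] at h
  rw [pow_add, pow_add]
  calc 2 ^ m * 2 ^ q * 2 ^ (q * (m / 2 + 1) - 1 - s)
      ≤ ((m + 1) * m.choose (m / 2)) * ((q + 1) * q.choose (q / 2)) *
        2 ^ (q * (m / 2 + 1) - 1 - s) := by gcongr
    _ = (m + 1) * (q + 1) * (m.choose (m / 2) * q.choose (q / 2) *
        2 ^ (q * (m / 2 + 1) - 1 - s)) := by ring
    _ ≤ (m + 1) * (m + 1) * (2 * a k n) := by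
        gcongr
        omega
    _ = 2 * (m + 1) ^ 2 * a k n := by ring

end Run7.h487.GO
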