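import Pool.Agent.Run7.h487.GO.C
import Pool.Agent.Run7.h487.GO.E

set_option autoImplicit false

/-! The asymptotic formula. -/

namespace Run7.h487.GO

open Finset Filter Asymptotics
open Pool.Agent.Results.MP_ac85ec_co.FourLevels (a)

lemma eventually_sq (K : ℝ) :
    ∀ᶠ n : ℕ in atTop, K * (Real.logb 2 n + K) ^ 2 ≤ n := by
  have h1 : (fun x : ℝ => Real.log x ^ 2) =o[atTop] (id : ℝ → ℝ) :=
    Real.isLittleO_pow_log_id_atTop
  have h2 : (fun x : ℝ => Real.log x) =o[atTop] (id : ℝ → ℝ) := Real.isLittleO_log_id_atTop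
  have h3 : (fun _ : ℝ => (1 : ℝ)) =o[atTop] (id : ℝ → ℝ) := isLittleO_const_id_atTop 1
  have h : (fun x : ℝ => K * (Real.logb 2 x + K) ^ 2) =o[atTop] (id : ℝ → ℝ) := by
    have e : (fun x : ℝ => K * (Real.logb 2 x + K) ^ 2) = fun x =>
        K / Real.log 2 ^ 2 * Real.log x ^ 2 + 2 * K ^ 2 / Real.log 2 * Real.log x + K ^ 3 * 1 := by
      funext x
      have : Real.log 2 ≠ 0 := (Real.log_pos (by norm_num)).ne'
      unfold Real.logb
      field_simp
      ring
    rw [e]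
    exact ((h1.const_mul_left _).add (h2.const_mul_left _)).add (h3.const_mul_left _)
  have h4 := h.bound (show (0 : ℝ) < 1 by norm_num)
  have h5 : ∀ᶠ n : ℕ in atTop, ‖K * (Real.logb 2 (n : ℝ) + K) ^ 2‖ ≤ 1 * ‖(id (n : ℝ) : ℝ)‖ :=
    tendsto_natCast_atTop_atTop.eventually h4
  filter_upwards [h5] with n hn
  have e : ‖(id (n : ℝ) : ℝ)‖ = n := by simp
  rw [one_mul, e, Real.norm_eq_abs] at hn
  exact (le_abs_self _).trans hn

lemma upper_log (k : ℕ) (hk : 5 ≤ k) : ∃ C : ℝ, ∀ᶠ n : ℕ in atTop,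
    Real.logb 2 (a k n) ≤ (n : ℝ) ^ 2 / 4 + (1 - ((k : ℝ) - 5) / 2) * n +
      k * Real.logb 2 n + C := by
  refine ⟨3 * k ^ 2 + 2 + Real.logb 2 (1 + 2 * k * Real.exp k), ?_⟩
  filter_upwards [eventually_sq (2 * k + 10), eventually_ge_atTop 1] with n hn hn1
  set L := Real.logb 2 n with hLdef
  have hn1R : (1 : ℝ) ≤ n := by exact_mod_cast hn1
  have hL : 0 ≤ L := Real.logb_nonneg (by norm_num) hn1R
  have hkR : (5 : ℝ) ≤ k := by exact_mod_cast hk
  have hNL : 4 * (L + 2) ^ 2 ≤ n := by nlinarith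
  have h2 : 2 * L + 4 * k ≤ (n : ℝ) / 4 := by
    nlinarith [mul_nonneg hL hL, mul_nonneg hL (show (0 : ℝ) ≤ k by linarith)]
  have hup := upper n k hk L hL hNL
  have hpowL : (2 : ℝ) ^ (-L) = 1 / n := by
    rw [Real.rpow_neg (by norm_num), hLdef, Real.rpow_logb (by norm_num) (by norm_num) (by linarith)]
    rw [one_div]
  have h4 : (4 + (k : ℝ) * (2 : ℝ) ^ (-L)) ^ n ≤ (2 : ℝ) ^ (2 * (n : ℝ)) * Real.exp k := by
    rw [hpowL]
    have h5 : 4 + (k : ℝ) * (1 / n) ≤ 4 * Real.exp (k / n) := by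
      have := Real.add_one_le_exp ((k : ℝ) / n)
      have h6 : 0 ≤ (k : ℝ) / n := by positivity
      have h7 : (k : ℝ) * (1 / n) = k / n := by ring
      rw [h7]
      linarith
    have h8 : (4 + (k : ℝ) * (1 / n)) ^ n ≤ (4 * Real.exp (k / n)) ^ n :=
      pow_le_pow_left₀ (by positivity) h5 n
    refine h8.trans (le_of_eq ?_)
    rw [mul_pow, ← Real.exp_nat_mul, Real.rpow_mul (by norm_num), Real.rpow_natCast]
    congr 1
    · norm_num
    · congr 1
      field_simp
  have h9 : (k : ℝ) ^ n * (2 : ℝ) ^ (2 * (L + k + 1) * n) ≤ (2 : ℝ) ^ (RR k n L + 2 * n) := by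
    have h10 : (k : ℝ) ≤ (2 : ℝ) ^ (k : ℝ) := by
      rw [Real.rpow_natCast]
      exact_mod_cast (Nat.lt_two_pow_self (n := k)).le
    have h11 : (k : ℝ) ^ n ≤ (2 : ℝ) ^ ((k : ℝ) * n) := by
      rw [Real.rpow_mul (by norm_num), Real.rpow_natCast]
      exact pow_le_pow_left₀ (by positivity) h10 n
    calc (k : ℝ) ^ n * (2 : ℝ) ^ (2 * (L + k + 1) * n)
        ≤ (2 : ℝ) ^ ((k : ℝ) * n) * (2 : ℝ) ^ (2 * (L + k + 1) * n) := by gcongr
      _ = (2 : ℝ) ^ ((k : ℝ) * n + 2 * (L + k + 1) * n) := by rw [Real.rpow_add (by norm_num)]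
      _ ≤ (2 : ℝ) ^ (RR k n L + 2 * n) := by
          apply Real.rpow_le_rpow_of_exponent_le (by norm_num)
          unfold RR
          have h12 : 0 ≤ (k : ℝ) * L := by positivity
          have h13 : 0 ≤ ((n : ℝ) / 4 - (2 * L + 4 * k)) * n := mul_nonneg (by linarith) (by linarith)
          nlinarith
  have h14 : (a k n : ℝ) ≤ (2 : ℝ) ^ (RR k n L + 2 * n) * (1 + 2 * k * Real.exp k) := by
    calc (a k n : ℝ) ≤ _ := hup
      _ ≤ (2 : ℝ) ^ (RR k n L + 2 * n) + 2 * k * ((2 : ℝ) ^ (RR k n L) *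
          ((2 : ℝ) ^ (2 * (n : ℝ)) * Real.exp k)) := by gcongr
      _ = (2 : ℝ) ^ (RR k n L + 2 * n) * (1 + 2 * k * Real.exp k) := by
          rw [Real.rpow_add (by norm_num)]
          ring
  rcases Nat.eq_zero_or_pos (a k n) with h0 | h0
  · rw [h0]
    simp only [Nat.cast_zero, Real.logb_zero]
    have h15 : 0 ≤ Real.logb 2 (1 + 2 * k * Real.exp k) := by
      apply Real.logb_nonneg (by norm_num)
      have : 0 ≤ 2 * (k : ℝ) * Real.exp k := by positivity
      linarith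
    have h12 : 0 ≤ (k : ℝ) * L := by positivity
    have h13 : 0 ≤ ((n : ℝ) / 4 - (2 * L + 4 * k)) * n := mul_nonneg (by linarith) (by linarith)
    nlinarith
  · have hpos : (0 : ℝ) < a k n := by exact_mod_cast h0
    have h16 := Real.logb_le_logb_of_le (by norm_num : (1 : ℝ) < 2) hpos h14
    rw [Real.logb_mul (by positivity) (by positivity), Real.logb_rpow (by norm_num) (by norm_num)]
      at h16
    unfold RR at h16
    linarith

lemma lower_log (k : ℕ) (hk : 5 ≤ k) : ∀ᶠ n : ℕ in atTop,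
    (n : ℝ) ^ 2 / 4 + (1 - ((k : ℝ) - 5) / 2) * n - 3 * Real.logb 2 n - 2 * k - 4 ≤
      Real.logb 2 (a k n) := by
  filter_upwards [eventually_sq (2 * k + 10), eventually_ge_atTop (k + 1)] with n hn hn1
  have hn1R : ((k + 1 : ℕ) : ℝ) ≤ n := by exact_mod_cast hn1
  push_cast at hn1R
  set L := Real.logb 2 n with hLdef
  have hkR : (5 : ℝ) ≤ k := by exact_mod_cast hk
  have hL : 0 ≤ L := Real.logb_nonneg (by norm_num) (by linarith)
  obtain ⟨m, hm⟩ : ∃ m, n = m + (k - 3) := ⟨n - (k - 3), by omega⟩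
  set s := Nat.clog 2 (2 * n) with hs
  have hs1 : 2 * n ≤ 2 ^ s := Nat.le_pow_clog (by norm_num) _
  have hs2 : 2 ^ (s - 1) < 2 * n := Nat.pow_pred_clog_lt_self (by norm_num) (by omega)
  have hs3 : (s : ℝ) ≤ L + 2 := by
    have h1 : ((2 ^ (s - 1) : ℕ) : ℝ) ≤ ((2 * n : ℕ) : ℝ) := by exact_mod_cast hs2.le
    push_cast at h1
    have h2 := Real.logb_le_logb_of_le (by norm_num : (1 : ℝ) < 2) (by positivity) h1
    rw [Real.logb_mul (by norm_num) (by linarith), Real.logb_self_eq_one (by norm_num),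
      ← Real.rpow_natCast, Real.logb_rpow (by norm_num) (by norm_num)] at h2
    have h3 : (s : ℝ) ≤ ((s - 1 : ℕ) : ℝ) + 1 := by
      have : s ≤ (s - 1) + 1 := by omega
      exact_mod_cast this
    linarith
  have hms : 4 * s + 8 ≤ m := by
    have h1 : ((4 * s + 8 + (k - 3) : ℕ) : ℝ) ≤ ((m + (k - 3) : ℕ) : ℝ) := by
      rw [← hm]
      have h2 : ((k - 3 : ℕ) : ℝ) ≤ k := by
        have : k - 3 ≤ k := by omega
        exact_mod_cast this
      push_cast
      nlinarith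
    have h3 : 4 * s + 8 + (k - 3) ≤ m + (k - 3) := by exact_mod_cast h1
    omega
  have hlow := lower k m s hk hm hs1 hms
  have hapos : 0 < a k n := by
    rcases Nat.eq_zero_or_pos (a k n) with h0 | h0
    · rw [h0, mul_zero] at hlow
      exact absurd hlow (not_le.2 (by positivity))
    · exact h0
  have haR : (0 : ℝ) < a k n := by exact_mod_cast hapos
  set q := m - m / 2 with hq
  set E := m + q + (q * (m / 2 + 1) - 1 - s) with hE
  have hEm : m ^ 2 + 8 * m ≤ 4 * E + 4 + 4 * s := by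
    have hb1 : m ^ 2 + 2 * m ≤ 4 * (q * (m / 2 + 1)) := by
      rcases Nat.even_or_odd' m with ⟨h, rfl | rfl⟩
      · have : q = h := by omega
        rw [this, show 2 * h / 2 = h by omega]
        nlinarith
      · have : q = h + 1 := by omega
        rw [this, show (2 * h + 1) / 2 = h by omega]
        nlinarith
    have hb2 : m ≤ 2 * q := by omega
    omega
  have hER : (m : ℝ) ^ 2 / 4 + 2 * m - 1 - s ≤ E := by
    have : ((m ^ 2 + 8 * m : ℕ) : ℝ) ≤ ((4 * E + 4 + 4 * s : ℕ) : ℝ) := by exact_mod_cast hEm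
    push_cast at this
    linarith
  have h1 : ((2 ^ E : ℕ) : ℝ) ≤ ((2 * (m + 1) ^ 2 * a k n : ℕ) : ℝ) := by exact_mod_cast hlow
  push_cast at h1
  have hm1 : (m : ℝ) + 1 ≤ n := by
    have : m + 1 ≤ n := by omega
    exact_mod_cast this
  have hm0 : (0 : ℝ) < (m : ℝ) + 1 := by positivity
  have h2 := Real.logb_le_logb_of_le (by norm_num : (1 : ℝ) < 2) (by positivity) h1
  rw [Real.logb_mul (by positivity) (by positivity), Real.logb_mul (by positivity) (by positivity),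
    Real.logb_pow, Real.logb_pow, Real.logb_self_eq_one (by norm_num), mul_one] at h2
  have h3 : Real.logb 2 ((m : ℝ) + 1) ≤ L := by
    rw [hLdef]
    exact Real.logb_le_logb_of_le (by norm_num) hm0 hm1
  have h4 : (n : ℝ) = m + ((k : ℝ) - 3) := by
    have : ((k - 3 : ℕ) : ℝ) = (k : ℝ) - 3 := by
      rw [Nat.cast_sub (by omega)]
      norm_num
    rw [hm]
    push_cast
    rw [this]
  have h5 : (m : ℝ) = n - ((k : ℝ) - 3) := by linarith
  rw [h5] at hER
  push_cast at h2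
  nlinarith

/-- The asymptotic formula for the number of graded orders with `k ≥ 5` grade levels. -/
theorem main (k : ℕ) (hk : 5 ≤ k) :
    (fun n : ℕ => Real.logb 2 (a k n) - ((n : ℝ) ^ 2 / 4 + (1 - ((k : ℝ) - 5) / 2) * n))
      =O[atTop] fun n : ℕ => Real.log n := by
  obtain ⟨C, hC⟩ := upper_log k hk
  have hlow := lower_log k hk
  have hlog2 : 0 < Real.log 2 := Real.log_pos (by norm_num)
  refine IsBigO.of_bound ((k + 3) / Real.log 2 + (|C| + 2 * k + 4) / Real.log 2) ?_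
  filter_upwards [hC, hlow, eventually_ge_atTop 2] with n h1 h2 hn
  have hnR : (2 : ℝ) ≤ n := by exact_mod_cast hn
  have hlogn : Real.log 2 ≤ Real.log n := Real.log_le_log (by norm_num) hnR
  have hL : Real.logb 2 n = Real.log n / Real.log 2 := rfl
  have hLn : 1 ≤ Real.log n / Real.log 2 := by
    rw [le_div_iff₀ hlog2]
    linarith
  rw [Real.norm_eq_abs, Real.norm_eq_abs, abs_of_nonneg (by linarith : 0 ≤ Real.log n)]
  rw [hL] at h1 h2
  have e : ((k + 3) / Real.log 2 + (|C| + 2 * k + 4) / Real.log 2) * Real.log n =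
      (k + 3) * (Real.log n / Real.log 2) + (|C| + 2 * k + 4) * (Real.log n / Real.log 2) := by
    ring
  rw [e]
  set M := Real.log n / Real.log 2
  have hk0 : (0 : ℝ) ≤ k := Nat.cast_nonneg k
  have hc1 : |C| + 2 * k + 4 ≤ (|C| + 2 * k + 4) * M := by
    have : 0 ≤ |C| + 2 * k + 4 := by positivity
    nlinarith
  have hc2 : C ≤ |C| := le_abs_self C
  have hc3 : 0 ≤ |C| := abs_nonneg C
  have hkM : 0 ≤ (k : ℝ) * M := by positivity
  rw [abs_le]
  constructor
  · nlinarith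
  · nlinarith

end Run7.h487.GO
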